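import Pool.Agent.Q5.ZP.Fru
import Pool.Agent.Q5.LI.Half

/-!
# Euler products with a pole at `s = 1`: the combined Dirichlet series
-/

set_option autoImplicit false

open MeasureTheory Filter Topology Set Complex
open Pool.Agent.TH942.LS (Dat)
open Pool.Agent.TH942.SL (DD)
open Pool.Agent.TH270.MS (Sh sh_le sh_meas Cn BM)

namespace Pool.Agent.Q5.ZP

variable {lam c : ℕ → ℝ} {δ : ℝ}

/-- the combined frequencies -/
noncomputable def lz (lam : ℕ → ℝ) (n : ℕ) : ℝ := if n % 2 = 0 then lam (n / 2) else gr (n / 2)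

/-- the combined coefficients -/
noncomputable def cc (c : ℕ → ℝ) (m : ℕ) (n : ℕ) : ℝ := if n % 2 = 0 then c (n / 2) else m * cz (n / 2)

theorem lz_even (lam : ℕ → ℝ) (k : ℕ) : lz lam (2 * k) = lam k := by
  unfold lz
  rw [if_pos (by omega)]
  congr 1
  omega

theorem lz_odd (lam : ℕ → ℝ) (k : ℕ) : lz lam (2 * k + 1) = gr k := by
  unfold lz
  rw [if_neg (by omega)]
  congr 1
  omega

theorem cc_even (c : ℕ → ℝ) (m k : ℕ) : cc c m (2 * k) = c k := by
  unfold cc
  rw [if_pos (by omega)]
  congr 1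
  omega

theorem cc_odd (c : ℕ → ℝ) (m k : ℕ) : cc c m (2 * k + 1) = m * cz k := by
  unfold cc
  rw [if_neg (by omega)]
  congr 2
  omega

theorem dat_c (D : Dat lam c δ 1) (hδ : δ ≤ 1) (m : ℕ) : Dat (lz lam) (cc c m) δ 1 where
  δ0 := D.δ0
  σ0 := D.σ0
  lam_ge n := by
    unfold lz
    split_ifs
    · exact D.lam_ge _
    · exact hδ.trans (gr_ge _)
  sum := by
    refine Summable.even_add_odd ?_ ?_
    · simp only [lz_even, cc_even]
      exact D.sum
    · simp only [lz_odd, cc_odd]
      refine (cz_sum.mul_left (m : ℝ)).congr fun j => ?_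
      rw [abs_mul, Nat.abs_cast, mul_assoc]

theorem term_sum (D : Dat lam c δ 1) {s : ℂ} (hs : 1 ≤ s.re) :
    Summable fun n => (c n : ℂ) * exp (-(s * lam n)) := by
  refine Summable.of_norm_bounded D.sum fun n => ?_
  rw [norm_mul, Complex.norm_real, Real.norm_eq_abs, Pool.Agent.Q5.BP.norm_exp_neg']
  refine mul_le_mul_of_nonneg_left (Real.exp_le_exp.2 ?_) (abs_nonneg _)
  have h1 : 0 ≤ lam n := D.δ0.le.trans (D.lam_ge n)
  nlinarith

theorem term_sum_z {s : ℂ} (hs : 1 ≤ s.re) : Summable fun n => (cz n : ℂ) * exp (-(s * gr n)) := by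
  refine Summable.of_norm_bounded cz_sum fun n => ?_
  rw [norm_mul, Complex.norm_real, Real.norm_eq_abs, Pool.Agent.Q5.BP.norm_exp_neg']
  refine mul_le_mul_of_nonneg_left (Real.exp_le_exp.2 ?_) (abs_nonneg _)
  have h1 := gr_ge n
  nlinarith

theorem DD_c (D : Dat lam c δ 1) (m : ℕ) {s : ℂ} (hs : 1 ≤ s.re) :
    DD (lz lam) (cc c m) s = DD lam c s + m * DZ s := by
  have h1 : HasSum (fun k => ((cc c m (2 * k) : ℝ) : ℂ) * exp (-(s * lz lam (2 * k)))) (DD lam c s) := by
    simp only [lz_even, cc_even]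
    exact (term_sum D hs).hasSum
  have h2 : HasSum (fun k => ((cc c m (2 * k + 1) : ℝ) : ℂ) * exp (-(s * lz lam (2 * k + 1))))
      (m * DZ s) := by
    simp only [lz_odd, cc_odd]
    have := (term_sum_z hs).hasSum.mul_left (m : ℂ)
    convert! this using 1
    funext k
    push_cast
    ring
  exact (h1.even_add_odd h2).tsum_eq

/-- the discrete sum up to `T` -/
noncomputable def Az (T : ℝ) : ℝ := ∑' j, if gr j ≤ T then cz j else 0

theorem az_summable (T : ℝ) : Summable fun j => if gr j ≤ T then cz j else 0 := by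
  refine Summable.of_norm_bounded (cz_sum.mul_left (Real.exp (1 * T))) fun j => ?_
  split_ifs with h
  · rw [Real.norm_eq_abs]
    have h1 : 1 ≤ Real.exp (1 * T) * Real.exp (-(1 * gr j)) := by
      rw [← Real.exp_add]
      exact Real.one_le_exp (by linarith)
    calc |cz j| = |cz j| * 1 := (mul_one _).symm
      _ ≤ |cz j| * (Real.exp (1 * T) * Real.exp (-(1 * gr j))) :=
        mul_le_mul_of_nonneg_left h1 (abs_nonneg _)
      _ = _ := by ring
  · rw [norm_zero]
    positivity

theorem sh_summable (D : Dat lam c δ 1) (T : ℝ) : Summable fun n => if lam n ≤ T then c n else 0 := by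
  refine Summable.of_norm_bounded (D.sum.mul_left (Real.exp (1 * T))) fun j => ?_
  split_ifs with h
  · rw [Real.norm_eq_abs]
    have h1 : 1 ≤ Real.exp (1 * T) * Real.exp (-(1 * lam j)) := by
      rw [← Real.exp_add]
      exact Real.one_le_exp (by linarith)
    calc |c j| = |c j| * 1 := (mul_one _).symm
      _ ≤ |c j| * (Real.exp (1 * T) * Real.exp (-(1 * lam j))) :=
        mul_le_mul_of_nonneg_left h1 (abs_nonneg _)
      _ = _ := by ring
  · rw [norm_zero]
    positivity

theorem Sh_c (D : Dat lam c δ 1) (m : ℕ) (T : ℝ) : Sh (lz lam) (cc c m) T = Sh lam c T + m * Az T := by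
  have h1 : HasSum (fun k => if lz lam (2 * k) ≤ T then cc c m (2 * k) else 0) (Sh lam c T) := by
    simp only [lz_even, cc_even]
    exact (sh_summable D T).hasSum
  have h2 : HasSum (fun k => if lz lam (2 * k + 1) ≤ T then cc c m (2 * k + 1) else 0) (m * Az T) := by
    simp only [lz_odd, cc_odd]
    have := (az_summable T).hasSum.mul_left (m : ℝ)
    convert! this using 1
    funext k
    split_ifs
    · rfl
    · rw [mul_zero]
  exact (h1.even_add_odd h2).tsum_eq

theorem wt_ii {a b : ℝ} (ha : 0 ≤ a) (hb : 0 ≤ b) : IntervalIntegrable wt volume a b := by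
  have key : ∀ x y : ℝ, 0 ≤ x → x ≤ y → IntegrableOn wt (Ioc x y) := by
    intro x y hx hxy
    refine Integrable.mono' (g := fun v => Real.exp (v / 2)) ?_ wt_meas.aestronglyMeasurable ?_
    · have : Continuous fun v : ℝ => Real.exp (v / 2) := by fun_prop
      exact (this.integrableOn_Icc (a := x) (b := y)).mono_set Ioc_subset_Icc_self
    · filter_upwards [ae_restrict_mem measurableSet_Ioc] with v hv
      have hv0 : 0 < v := lt_of_le_of_lt hx hv.1
      rw [Real.norm_of_nonneg (wt_nonneg hv0)]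
      exact wt_le hv0
  rcases le_total a b with h | h
  · rw [intervalIntegrable_iff_integrableOn_Ioc_of_le h]
    exact key a b ha h
  · exact ((intervalIntegrable_iff_integrableOn_Ioc_of_le h).2 (key b a hb h)).symm

/-- the distance of the discrete sum from the integral -/
theorem az_near {T : ℝ} (hT : 1 ≤ T) :
    |Az T - ∫ v in (1 : ℝ)..T, wt v| ≤ Real.exp (-Real.exp (T - 1)) * Real.exp ((T + 1) / 2) := by
  have hmem : T ∈ ⋃ j, cell j := by
    rw [cell_union]
    exact hT
  obtain ⟨J, hJ⟩ := mem_iUnion.1 hmem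
  have hJ1 : gr J ≤ T := hJ.1
  have hJ2 : T < gr (J + 1) := hJ.2
  have e1 : Az T = ∑ j ∈ Finset.range (J + 1), cz j := by
    unfold Az
    rw [tsum_eq_sum (s := Finset.range (J + 1))]
    · refine Finset.sum_congr rfl fun j hj => ?_
      rw [if_pos ((gr_mono.monotone (by simpa [Nat.lt_succ_iff] using hj)).trans hJ1)]
    · intro j hj
      have h1 : J + 1 ≤ j := by simpa using hj
      rw [if_neg (not_le.2 (hJ2.trans_le (gr_mono.monotone h1)))]
  have e2 : ∀ j : ℕ, cz j = ∫ v in gr j..gr (j + 1), wt v := by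
    intro j
    unfold cz cell
    rw [intervalIntegral.integral_of_le (gr_lt j).le, integral_Ico_eq_integral_Ioo,
      integral_Ioc_eq_integral_Ioo]
  have e3 : ∑ j ∈ Finset.range (J + 1), cz j = ∫ v in (1 : ℝ)..gr (J + 1), wt v := by
    simp only [e2]
    rw [intervalIntegral.sum_integral_adjacent_intervals fun k _ =>
      wt_ii (by linarith [gr_ge k]) (by linarith [gr_ge (k + 1)]), gr_zero]
  have hg1 := gr_ge (J + 1)
  rw [e1, e3, intervalIntegral.integral_interval_sub_left (wt_ii zero_le_one (by linarith))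
    (wt_ii zero_le_one (by linarith))]
  have h1 := intervalIntegral.norm_integral_le_of_norm_le_const (a := T) (b := gr (J + 1)) (f := wt)
    (C := Real.exp ((T + 1) / 2)) fun v hv => by
      rw [uIoc_of_le hJ2.le] at hv
      have hv0 : 0 < v := by linarith [hv.1]
      rw [Real.norm_of_nonneg (wt_nonneg hv0)]
      refine (wt_le hv0).trans (Real.exp_le_exp.2 ?_)
      have := step_le_one J
      linarith [hv.2]
  rw [Real.norm_eq_abs] at h1
  refine h1.trans ?_
  rw [mul_comm]
  refine mul_le_mul_of_nonneg_right ?_ (Real.exp_pos _).le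
  rw [abs_of_nonneg (by linarith)]
  have h2 := step_le J
  have h3 : T - 1 ≤ gr J := by linarith [step_le_one J]
  calc gr (J + 1) - T ≤ gr (J + 1) - gr J := by linarith
    _ ≤ Real.exp (-Real.exp (gr J)) := h2
    _ ≤ Real.exp (-Real.exp (T - 1)) := Real.exp_le_exp.2 (by
      have := Real.exp_le_exp.2 h3
      linarith)

theorem az_tendsto : Tendsto (fun T : ℝ => T * (Az T - ∫ v in (1 : ℝ)..T, wt v)) atTop (𝓝 0) := by
  have h1 : ∀ᶠ T : ℝ in atTop, ‖T * (Az T - ∫ v in (1 : ℝ)..T, wt v)‖ ≤
      T * (Real.exp 1 * Real.exp 1 * Real.exp (-(T / 2))) := by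
    filter_upwards [eventually_ge_atTop 1, eventually_ge_atTop 4] with T hT hT4
    rw [norm_mul, Real.norm_of_nonneg (by linarith), Real.norm_eq_abs]
    refine mul_le_mul_of_nonneg_left ((az_near hT).trans ?_) (by linarith)
    rw [← Real.exp_add, ← Real.exp_add, ← Real.exp_add]
    apply Real.exp_le_exp.2
    have h2 : T ≤ Real.exp (T - 1) := by linarith [Real.add_one_le_exp (T - 1)]
    linarith
  refine squeeze_zero_norm' h1 ?_
  have h2 : Tendsto (fun T : ℝ => (T / 2) ^ 1 * Real.exp (-(T / 2))) atTop (𝓝 0) :=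
    (Real.tendsto_pow_mul_exp_neg_atTop_nhds_zero 1).comp (tendsto_id.atTop_div_const (by norm_num))
  have h3 := h2.const_mul (2 * (Real.exp 1 * Real.exp 1))
  rw [mul_zero] at h3
  refine h3.congr fun T => ?_
  rw [pow_one]
  ring

/-- the sharp sums of a Dirichlet series are locally bounded -/
theorem bm_sh (D : Dat lam c δ 1) : BM fun y => Sh lam c (Real.log y) := by
  refine ⟨((sh_meas D).comp Real.measurable_log).aestronglyMeasurable, fun Y => ?_⟩
  refine ⟨Real.exp (1 * Real.log Y) * ∑' n, |c n| * Real.exp (-(1 * lam n)), fun y h1 h2 => ?_⟩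
  refine (sh_le D _).trans ?_
  have h0 : 0 ≤ ∑' n, |c n| * Real.exp (-(1 * lam n)) := tsum_nonneg fun n => by positivity
  refine mul_le_mul_of_nonneg_right (Real.exp_le_exp.2 ?_) h0
  have := Real.log_le_log ((Real.exp_pos 1).trans_le h1) h2
  linarith

end Pool.Agent.Q5.ZP
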