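import Pool.Agent.Q5.ZP.PoleCn
import Pool.Agent.Q5.AP.Bridge

/-!
# Euler products with a pole at `s = 1` and centre `1/2`: the error term
-/

set_option autoImplicit false

open MeasureTheory Filter Topology Set Complex
open Pool.Agent.TH942.LS (Dat)
open Pool.Agent.TH942.SL (DD)
open Pool.Agent.TH942.ES (Sys zv xv cv cP lamS)
open Pool.Agent.TH270.MS (Sh sh_le sh_meas Cn BM Pl sh_eq one_le_log cov_ii eventually_exp_iff tendsto_exp_iff)
open Pool.Agent.TH270.RS (cS' dat' DD_neg)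
open Pool.Agent.Q5.LI (RootsH multH factorH)
open Pool.Agent.Q5.DC (nP two_le)
open Pool.Agent.Q5.BP (MSq FB BSq bm_log bsq_iff sqm_iff cmean_of cn_tfae cn_coeff cov_iiC mu)
open Pool.Agent.Q5.AP (Par cut cm par_of_cm)

namespace Pool.Agent.Q5.ZP

variable {n : ℕ} {α : Nat.Primes → Fin n → ℂ} {F : ℂ → ℂ} {m : ℕ}

theorem wt_even (v : ℝ) : wt (-v) = wt v := by
  unfold wt
  rw [show -v / 2 = -(v / 2) by ring, neg_neg, div_neg, ← neg_div]
  congr 1
  ring

theorem wt_abs (v : ℝ) : |wt v| ≤ Real.exp (|v| / 2) := by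
  rcases lt_trichotomy v 0 with h | h | h
  · rw [← wt_even v, abs_of_nonneg (wt_nonneg (by linarith)), abs_of_neg h]
    exact wt_le (by linarith)
  · rw [h]
    unfold wt
    simp
  · rw [abs_of_nonneg (wt_nonneg h), abs_of_pos h]
    exact wt_le h

theorem wt_ii' (a b : ℝ) : IntervalIntegrable wt volume a b := by
  have h1 : IntervalIntegrable (fun v : ℝ => Real.exp (|v| / 2)) volume a b :=
    (by fun_prop : Continuous fun v : ℝ => Real.exp (|v| / 2)).intervalIntegrable a b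
  refine h1.mono_fun' wt_meas.aestronglyMeasurable (Eventually.of_forall fun v => ?_)
  show ‖wt v‖ ≤ Real.exp (|v| / 2)
  rw [Real.norm_eq_abs]
  exact wt_abs v

theorem bm_prim : BM fun x => ∫ v in (0 : ℝ)..Real.log x, wt v := by
  refine ⟨?_, fun Y => ⟨Real.exp (|Real.log Y| / 2) * |Real.log Y|, fun y h1 h2 => ?_⟩⟩
  · have hc : Continuous fun b : ℝ => ∫ v in (0 : ℝ)..b, wt v :=
      intervalIntegral.continuous_primitive wt_ii' 0
    exact (hc.measurable.comp Real.measurable_log).aestronglyMeasurable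
  · have h3 := one_le_log h1
    have h4 : Real.log y ≤ Real.log Y := Real.log_le_log ((Real.exp_pos 1).trans_le h1) h2
    have h5 : |Real.log Y| = Real.log Y := abs_of_nonneg (by linarith)
    have h6 := intervalIntegral.norm_integral_le_of_norm_le_const (a := 0) (b := Real.log y) (f := wt)
      (C := Real.exp (|Real.log Y| / 2)) fun v hv => by
        rw [uIoc_of_le (by linarith)] at hv
        rw [Real.norm_eq_abs]
        refine (wt_abs v).trans (Real.exp_le_exp.2 ?_)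
        rw [h5, abs_of_pos hv.1]
        linarith [hv.2]
    rw [Real.norm_eq_abs] at h6
    refine h6.trans (mul_le_mul_of_nonneg_left ?_ (Real.exp_pos _).le)
    rw [sub_zero, abs_of_nonneg (by linarith), h5]
    exact h4

/-- the error term: `log A - R(x) + m ∫_0^{log x} wt - ρ (γ + log log x)` -/
noncomputable def dZ (α : Nat.Primes → Fin n → ℂ) (m : ℕ) (ρ A x : ℝ) : ℝ :=
  Real.log A - Pl nP α x + m * (∫ v in (0 : ℝ)..Real.log x, wt v) -
    ρ * (Real.eulerMascheroniConstant + Real.log (Real.log x))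

theorem bm_PlH (R : RootsH α) : BM (Pl nP α) := by
  have E := R.sys
  have := E.cnt
  obtain ⟨e, he⟩ := Countable.exists_injective_nat (Nat.Primes × ℕ)
  refine Pool.Agent.Q5.OM.bm_congr (bm_sh (dat' E he)).neg fun y hy => ?_
  rw [sh_eq E he, neg_neg, Real.exp_log ((Real.exp_pos 1).trans_le hy)]

theorem bm_dZ (R : RootsH α) (m : ℕ) (ρ A : ℝ) : BM (dZ α m ρ A) :=
  (((BM.const (Real.log A)).sub (bm_PlH R)).add ((BM.const (m : ℝ)).mul bm_prim)).sub
    ((BM.const ρ).mul ((BM.const Real.eulerMascheroniConstant).add BM.loglog))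

theorem ord_unit {f g w : ℂ → ℂ} {z : ℂ} (hf : AnalyticAt ℂ f z) (hw : AnalyticAt ℂ w z) (hw0 : w z ≠ 0)
    (h : ∀ᶠ s in 𝓝 z, g s = f s * w s) : analyticOrderAt g z = analyticOrderAt f z := by
  have h1 : g =ᶠ[𝓝 z] f * w := h
  rw [analyticOrderAt_congr h1, analyticOrderAt_mul hf hw, hw.analyticOrderAt_eq_zero.2 hw0, add_zero]

theorem mu_P {G g : ℂ → ℂ} {e : Nat.Primes × ℕ → ℕ} {p κ : ℕ} {η C : ℝ}
    (Q : Cn (lz (lamS nP e)) (cc (cS' nP α e) m) (Real.log 2) 1 (G0 m G) g 0 p κ η C) (hη4 : η ≤ 1 / 4)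
    (hGF : ∀ s : ℂ, -η < s.re → s ≠ 1 / 2 → G (1 / 2 + s) = (1 / 2 + s - 1) ^ m * F (1 / 2 + s)) (t : ℝ) :
    mu (G0 m G) t = multH F t := by
  have hη := Q.hη
  set z : ℂ := (t : ℂ) * I with hz
  have hzre : z.re = 0 := by simp [hz]
  have hz1 : z ≠ 1 / 2 := by
    intro h
    have h1 := congrArg Complex.re h
    rw [hzre] at h1
    norm_num at h1
  have hopen : IsOpen {s : ℂ | -η < s.re ∧ s ≠ 1 / 2} :=
    (isOpen_lt continuous_const Complex.continuous_re).inter isOpen_ne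
  have hmem : z ∈ {s : ℂ | -η < s.re ∧ s ≠ 1 / 2} := ⟨by rw [hzre]; linarith, hz1⟩
  have hreg : ∀ᶠ s in 𝓝 z, -η < s.re ∧ s ≠ 1 / 2 := hopen.mem_nhds hmem
  have hw1 : DifferentiableOn ℂ (fun s => (m : ℂ) * (Kf s - Et s)) {s : ℂ | -η < s.re} := fun s hs =>
    (((Kf_facts.1 s (by linarith [show -η < s.re from hs])).sub
      (Et_diff (by linarith [show -η < s.re from hs]))).const_mul _).differentiableWithinAt
  have hU : IsOpen {s : ℂ | -η < s.re} := isOpen_lt continuous_const Complex.continuous_re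
  have hzU : z ∈ {s : ℂ | -η < s.re} := by
    show -η < z.re
    rw [hzre]
    linarith
  have hw2 : AnalyticAt ℂ (fun s => (m : ℂ) * (Kf s - Et s)) z := hw1.analyticOnNhd hU z hzU
  -- `G₀` has the order of `F(1/2 + s)`
  have aG0 : AnalyticAt ℂ (G0 m G) z :=
    (DifferentiableOn.analyticOnNhd (fun s hs => (Q.hG s hs).differentiableWithinAt) hU) z hzU
  have hh : z + 1 / 2 ≠ 0 := half_ne (by rw [hzre]; norm_num)
  have hh2 : z - 1 / 2 ≠ 0 := sub_ne_zero.2 hz1
  set w : ℂ → ℂ := fun s => ((s + 1 / 2) / (s - 1 / 2)) ^ m * exp (-((m : ℂ) * (Kf s - Et s))) with hw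
  have aw : AnalyticAt ℂ w z := by
    rw [hw]
    have d1 : AnalyticAt ℂ (fun s : ℂ => s + 1 / 2) z := by fun_prop
    have d2 : AnalyticAt ℂ (fun s : ℂ => s - 1 / 2) z := by fun_prop
    exact ((d1.fun_div d2 hh2).fun_pow m).fun_mul hw2.neg.cexp
  have hw0 : w z ≠ 0 := mul_ne_zero (pow_ne_zero _ (div_ne_zero hh hh2)) (Complex.exp_ne_zero _)
  have hrel : ∀ᶠ s in 𝓝 z, (fun s => F (((1 / 2 : ℝ) : ℂ) + s)) s = G0 m G s * w s := by
    filter_upwards [hreg] with s hs
    have e1 : (((1 / 2 : ℝ)) : ℂ) = 1 / 2 := by push_cast; rfl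
    rw [e1, G0_eq (hGF s hs.1 hs.2), hw]
    simp only
    have h1 : s + 1 / 2 ≠ 0 := half_ne (by linarith [hs.1])
    have h2 : s - 1 / 2 ≠ 0 := sub_ne_zero.2 hs.2
    rw [Complex.exp_neg, div_pow, div_pow]
    have h3 : exp ((m : ℂ) * (Kf s - Et s)) ≠ 0 := Complex.exp_ne_zero _
    have h4 : (s + 1 / 2) ^ m ≠ 0 := pow_ne_zero _ h1
    have h5 : (s - 1 / 2) ^ m ≠ 0 := pow_ne_zero _ h2
    generalize exp ((m : ℂ) * (Kf s - Et s)) = E1 at h3 ⊢
    generalize (s + 1 / 2) ^ m = E2 at h4 ⊢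
    generalize (s - 1 / 2) ^ m = E3 at h5 ⊢
    generalize F (1 / 2 + s) = E4
    field_simp
  have h1 := ord_unit aG0 aw hw0 hrel
  rw [← Pool.Agent.Q5.LI.mu_H F t]
  unfold mu
  rw [h1]

/-- everything about the error term -/
theorem errP (R : RootsH α) (hF : TempP α m F) {ρ A : ℝ} (hA : 0 < A) :
    BM (fun x => Real.log x * dZ α m ρ A x) ∧
    List.TFAE [RHP F ∧ LeadP F m ρ A, BSq (dZ α m ρ A),
      ∃ V : ℝ, HasSum (fun t : ℝ => ((multH F t : ℝ) / t) ^ 2) V ∧ Tendsto (MSq (dZ α m ρ A)) atTop (𝓝 V)] ∧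
    (RHP F ∧ LeadP F m ρ A → ∀ t : ℝ,
      Tendsto (FB (dZ α m ρ A) t) atTop (𝓝 (-((multH F t : ℂ) * I / t)))) ∧
    (RHP F ∧ LeadP F m ρ A → ∃ V : ℝ, HasSum (fun t : ℝ => ((multH F t : ℝ) / t) ^ 2) V ∧
      Par (fun u => (cut (fun x => Real.log x * dZ α m ρ A x) u : ℂ)) (cm (multH F)) V) := by
  obtain ⟨e, G, g, p, κ, η, C, he, Q, hη4, hG1, hGF⟩ := cnP R hF
  set lam := lz (lamS nP e) with hlam
  set c := cc (cS' nP α e) m with hc
  set q : ℝ := ρ * Real.eulerMascheroniConstant - Real.log A - m * K0 with hq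
  have E := R.sys
  have hkey := key_iff Q hη4 hG1 hGF ρ hA
  have hmu : ∀ t, mu (G0 m G) t = multH F t := mu_P Q hη4 hGF
  set φ : ℝ → ℝ := fun u => u * (Sh lam c u - ρ * Real.log u - q) with hφ
  have bmf : BM fun y => φ (Real.log y) := by
    rw [hφ]
    exact bm_log.mul (((bm_sh Q.D).sub ((BM.const ρ).mul BM.loglog)).sub (BM.const q))
  have bmg : BM fun y => Real.log y * dZ α m ρ A y := bm_log.mul (bm_dZ R m ρ A)
  -- the difference
  have hdiff : ∀ y : ℝ, Real.exp 1 ≤ y → φ (Real.log y) - Real.log y * dZ α m ρ A y =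
      m * (Real.log y * (Az (Real.log y) - ∫ v in (1 : ℝ)..Real.log y, wt v)) := by
    intro y hy
    have h1 := one_le_log hy
    have h2 : (∫ v in (0 : ℝ)..Real.log y, wt v) = K0 + ∫ v in (1 : ℝ)..Real.log y, wt v := by
      unfold K0
      rw [intervalIntegral.integral_add_adjacent_intervals (wt_ii' _ _) (wt_ii' _ _)]
    rw [hφ]
    simp only
    rw [hlam, hc, Sh_c (dat' E he), sh_eq E he, Real.exp_log ((Real.exp_pos 1).trans_le hy), hq]
    unfold dZ
    rw [h2]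
    ring
  have hclose : Tendsto (fun y => φ (Real.log y) - Real.log y * dZ α m ρ A y) atTop (𝓝 0) := by
    have h1 := (az_tendsto.comp Real.tendsto_log_atTop).const_mul (m : ℝ)
    rw [mul_zero] at h1
    refine h1.congr' ?_
    filter_upwards [eventually_ge_atTop (Real.exp 1)] with y hy
    rw [hdiff y hy]
    rfl
  have hsq : ∀ T : ℝ, 1 ≤ T → ∫ y in Real.exp 1..Real.exp T, φ (Real.log y) ^ 2 / y =
      ∫ u in (1 : ℝ)..T, (u * (Sh lam c u - ρ * Real.log u - q)) ^ 2 := fun T hT =>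
    cov_ii (fun u => φ u ^ 2) hT
  have t := cn_tfae Q ρ q
  have hP : RHP F ∧ LeadP F m ρ A ↔ (∀ s : ℂ, 0 < s.re → G0 m G s ≠ 0) ∧ (p : ℝ) = (0 : ℕ) + ρ ∧
      g 0 = Real.exp (ρ * Real.eulerMascheroniConstant - q) := hkey
  have h12 : RHP F ∧ LeadP F m ρ A ↔ BSq (dZ α m ρ A) := by
    rw [hP]
    refine (t.out 0 1).trans ?_
    unfold BSq
    rw [← bsq_iff bmf bmg hclose]
    refine exists_congr fun B => ?_
    rw [eventually_exp_iff (f := fun Y => ∫ y in Real.exp 1..Y, φ (Real.log y) ^ 2 / y ≤ B * Real.log Y)]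
    constructor
    · intro h
      filter_upwards [h, eventually_ge_atTop 1] with T h2 hT
      rw [hsq T hT, Real.log_exp]
      exact h2
    · intro h
      filter_upwards [h, eventually_ge_atTop 1] with T h2 hT
      rw [hsq T hT, Real.log_exp] at h2
      exact h2
  have h13 : RHP F ∧ LeadP F m ρ A ↔ ∃ V : ℝ, HasSum (fun t : ℝ => ((multH F t : ℝ) / t) ^ 2) V ∧
      Tendsto (MSq (dZ α m ρ A)) atTop (𝓝 V) := by
    rw [hP]
    refine (t.out 0 2).trans ?_
    simp only [hmu]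
    refine exists_congr fun V => and_congr_right fun _ => ?_
    unfold MSq
    rw [← sqm_iff bmf bmg hclose]
    rw [tendsto_exp_iff (f := fun Y => (∫ y in Real.exp 1..Y, φ (Real.log y) ^ 2 / y) / Real.log Y)]
    refine tendsto_congr' ?_
    filter_upwards [eventually_ge_atTop 1] with T hT
    rw [hsq T hT, Real.log_exp]
  have hT : List.TFAE [RHP F ∧ LeadP F m ρ A, BSq (dZ α m ρ A),
      ∃ V : ℝ, HasSum (fun t : ℝ => ((multH F t : ℝ) / t) ^ 2) V ∧
        Tendsto (MSq (dZ α m ρ A)) atTop (𝓝 V)] := by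
    tfae_have 1 ↔ 2 := h12
    tfae_have 1 ↔ 3 := h13
    tfae_finish
  have hco : RHP F ∧ LeadP F m ρ A → ∀ t : ℝ,
      Tendsto (FB (dZ α m ρ A) t) atTop (𝓝 (-((multH F t : ℂ) * I / t))) := by
    intro h t
    obtain ⟨h1, h2, h3⟩ := hP.1 h
    have h4 := cn_coeff Q h1 h2 h3 t
    have h5 : (mu (G0 m G) t : ℂ) / (t * I) = -((multH F t : ℂ) * I / t) := by
      rw [hmu t]
      by_cases ht : t = 0
      · rw [ht]
        simp
      · have htc : (t : ℂ) ≠ 0 := by exact_mod_cast ht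
        have hI := Complex.I_mul_I
        field_simp
        linear_combination (multH F t : ℂ) * hI
    rw [h5] at h4
    have h7 : Tendsto (fun T : ℝ => (∫ y in Real.exp 1..Real.exp T,
        ((φ (Real.log y) : ℝ) : ℂ) * (y : ℂ) ^ (-(t * I)) / (y : ℂ)) /
          (Real.log (Real.exp T) : ℂ)) atTop (𝓝 (-((multH F t : ℂ) * I / t))) := by
      refine h4.congr' ?_
      filter_upwards [eventually_ge_atTop 1] with T hT
      rw [Real.log_exp, ← cov_iiC _ hT]
      congr 1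
      refine intervalIntegral.integral_congr fun Y hY => ?_
      rw [uIcc_of_le (Real.exp_le_exp.2 hT)] at hY
      have h0 : 0 < Y := (Real.exp_pos 1).trans_le hY.1
      have h0c : (Y : ℂ) ≠ 0 := by exact_mod_cast h0.ne'
      have h1 : (Y : ℂ) ^ (-(t * I)) = exp (-(t * I * Real.log Y)) := by
        rw [cpow_def_of_ne_zero h0c, ← Complex.ofReal_log h0.le]
        congr 1
        ring
      rw [h1]
    have h8 : Tendsto (fun Y : ℝ => (∫ y in Real.exp 1..Y,
        ((φ (Real.log y) : ℝ) : ℂ) * (y : ℂ) ^ (-(t * I)) / (y : ℂ)) / (Real.log Y : ℂ)) atTop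
        (𝓝 (-((multH F t : ℂ) * I / t))) := by
      have h9 := h7.comp Real.tendsto_log_atTop
      refine h9.congr' ?_
      filter_upwards [eventually_gt_atTop 0] with Y hY
      simp only [Function.comp_apply]
      rw [Real.exp_log hY]
    exact cmean_of bmf bmg hclose t h8
  exact ⟨bmg, hT, hco, fun h => par_of_cm bmg ((hT.out 0 2).1 h) (hco h)⟩

end Pool.Agent.Q5.ZP
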