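import Pool.Agent.Q5.ZP.Grid

/-!
# The Laplace transform of `2 sinh(v/2)/v`
-/

set_option autoImplicit false

open MeasureTheory Filter Topology Set Complex
open Pool.Agent.Q5.BP (HL La norm_exp_neg' exp_memLp)

namespace Pool.Agent.Q5.ZP

/-- the function `wt v e^{-v}` on `v > 0` -/
noncomputable def h0 (v : ℝ) : ℂ := (Ioi (0 : ℝ)).indicator (fun v => ((wt v * Real.exp (-v) : ℝ) : ℂ)) v

theorem h0_pos {v : ℝ} (hv : 0 < v) : h0 v = ((wt v * Real.exp (-v) : ℝ) : ℂ) := by
  unfold h0
  rw [indicator_of_mem (show v ∈ Ioi (0 : ℝ) from hv)]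

theorem h0_neg {v : ℝ} (hv : v ≤ 0) : h0 v = 0 := by
  unfold h0
  rw [indicator_of_notMem (by simpa using hv)]

theorem h0_meas : Measurable h0 := by
  unfold h0
  exact (Complex.measurable_ofReal.comp (wt_meas.mul (by fun_prop))).indicator measurableSet_Ioi

theorem h0_le (v : ℝ) : ‖h0 v‖ ≤ ‖(Ioi (0 : ℝ)).indicator (fun u : ℝ => Real.exp (-((1 / 2) * u))) v‖ := by
  rcases le_or_gt v 0 with hv | hv
  · rw [h0_neg hv, norm_zero]
    exact norm_nonneg _
  · rw [h0_pos hv, indicator_of_mem (show v ∈ Ioi (0 : ℝ) from hv), Complex.norm_real,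
      Real.norm_of_nonneg (mul_nonneg (wt_nonneg hv) (Real.exp_pos _).le),
      Real.norm_of_nonneg (Real.exp_pos _).le]
    calc wt v * Real.exp (-v) ≤ Real.exp (v / 2) * Real.exp (-v) :=
          mul_le_mul_of_nonneg_right (wt_le hv) (Real.exp_pos _).le
      _ = Real.exp (-((1 / 2) * v)) := by
        rw [← Real.exp_add]
        congr 1
        ring

theorem h0_HL : HL h0 where
  zero u hu := h0_neg hu
  sq := (exp_memLp (x := 1 / 2) (by norm_num)).mono h0_meas.aestronglyMeasurable
    (Eventually.of_forall h0_le)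

/-- the derivative -/
theorem h0_deriv {z : ℂ} (hz : 0 < z.re) :
    HasDerivAt (La h0) (-(1 / (z + 1 / 2) - 1 / (z + 3 / 2))) z := by
  refine (h0_HL.deriv hz).congr_deriv ?_
  congr 1
  have h1 : (-(z + 1 / 2)).re < 0 := by
    simp
    linarith
  have h3 : (-(z + 3 / 2)).re < 0 := by
    simp
    linarith
  have i1 := integrableOn_exp_mul_complex_Ioi h1 0
  have i3 := integrableOn_exp_mul_complex_Ioi h3 0
  have e1 := integral_exp_mul_complex_Ioi h1 0
  have e3 := integral_exp_mul_complex_Ioi h3 0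
  simp only [Complex.ofReal_zero, mul_zero, Complex.exp_zero] at e1 e3
  have key : La (fun u : ℝ => (u : ℂ) * h0 u) z =
      ∫ v in Ioi (0 : ℝ), (exp (-(z + 1 / 2) * v) - exp (-(z + 3 / 2) * v)) := by
    unfold La
    rw [← integral_indicator measurableSet_Ioi]
    refine integral_congr_ae (Eventually.of_forall fun v => ?_)
    simp only
    rcases le_or_gt v 0 with hv | hv
    · rw [h0_neg hv, indicator_of_notMem (by simpa using hv)]
      simp
    · rw [h0_pos hv, indicator_of_mem (show v ∈ Ioi (0 : ℝ) from hv)]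
      have hvc : (v : ℂ) ≠ 0 := by exact_mod_cast hv.ne'
      unfold wt
      push_cast
      have a1 : exp (-(z + 1 / 2) * v) = exp ((v : ℂ) / 2) * exp (-(v : ℂ)) * exp (-(z * v)) := by
        rw [← Complex.exp_add, ← Complex.exp_add]
        congr 1
        ring
      have a3 : exp (-(z + 3 / 2) * v) = exp (-((v : ℂ) / 2)) * exp (-(v : ℂ)) * exp (-(z * v)) := by
        rw [← Complex.exp_add, ← Complex.exp_add]
        congr 1
        ring
      rw [a1, a3]
      field_simp
  rw [key, integral_sub i1 i3, e1, e3, neg_div_neg_eq, neg_div_neg_eq]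

theorem La_small {x : ℝ} (hx : 0 < x) : ‖La h0 x‖ ≤ 1 / (x + 1 / 2) := by
  have h1 : IntegrableOn (fun v : ℝ => Real.exp (-(x + 1 / 2) * v)) (Ioi 0) :=
    integrableOn_exp_mul_Ioi (by linarith) 0
  have h2 : ∫ v in Ioi (0 : ℝ), Real.exp (-(x + 1 / 2) * v) = 1 / (x + 1 / 2) := by
    rw [integral_exp_mul_Ioi (by linarith), mul_zero, Real.exp_zero, neg_div_neg_eq]
  rw [← h2, ← integral_indicator measurableSet_Ioi]
  unfold La
  refine norm_integral_le_of_norm_le ((integrable_indicator_iff measurableSet_Ioi).2 h1)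
    (Eventually.of_forall fun v => ?_)
  rw [norm_mul, norm_exp_neg', Complex.ofReal_re]
  have h3 := h0_le v
  by_cases hv : v ∈ Ioi (0 : ℝ)
  · rw [indicator_of_mem hv] at h3 ⊢
    rw [Real.norm_of_nonneg (Real.exp_pos _).le] at h3
    calc ‖h0 v‖ * Real.exp (-(x * v)) ≤ Real.exp (-((1 / 2) * v)) * Real.exp (-(x * v)) :=
          mul_le_mul_of_nonneg_right h3 (Real.exp_pos _).le
      _ = Real.exp (-(x + 1 / 2) * v) := by
        rw [← Real.exp_add]
        congr 1
        ring
  · rw [indicator_of_notMem hv] at h3 ⊢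
    rw [norm_zero] at h3
    have : ‖h0 v‖ = 0 := le_antisymm h3 (norm_nonneg _)
    rw [this, zero_mul]

/-- **Frullani**: `exp (∫ wt(v) e^{-(z+1)v} dv) = (z + 3/2)/(z + 1/2)` -/
theorem frullani {z : ℂ} (hz : 0 < z.re) : exp (-La h0 z) = (z + 1 / 2) / (z + 3 / 2) := by
  have n1 : ∀ w : ℂ, 0 < w.re → w + 1 / 2 ≠ 0 := by
    intro w hw h
    have := congrArg Complex.re h
    simp at this
    linarith
  have n3 : ∀ w : ℂ, 0 < w.re → w + 3 / 2 ≠ 0 := by
    intro w hw h
    have := congrArg Complex.re h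
    simp at this
    linarith
  set Φ : ℂ → ℂ := fun w => exp (La h0 w) * ((w + 1 / 2) / (w + 3 / 2)) with hΦ
  have hder : ∀ w ∈ {w : ℂ | 0 < w.re}, HasDerivAt Φ 0 w := by
    intro w hw
    have hw0 : 0 < w.re := hw
    have h1 := (h0_deriv hw0).cexp
    have h2 : HasDerivAt (fun w : ℂ => (w + 1 / 2) / (w + 3 / 2))
        ((1 * (w + 3 / 2) - (w + 1 / 2) * 1) / (w + 3 / 2) ^ 2) w :=
      ((hasDerivAt_id w).add_const _).div ((hasDerivAt_id w).add_const _) (n3 w hw0)
    refine (h1.mul h2).congr_deriv ?_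
    have k1 := n1 w hw0
    have k3 := n3 w hw0
    have hb : w + 3 / 2 = (w + 1 / 2) + 1 := by ring
    rw [hb] at k3 ⊢
    generalize w + 1 / 2 = a at k1 k3 ⊢
    field_simp
    ring
  have hU : IsOpen {w : ℂ | 0 < w.re} := isOpen_lt continuous_const Complex.continuous_re
  have hconst : ∀ w ∈ {w : ℂ | 0 < w.re}, ∀ w' ∈ {w : ℂ | 0 < w.re}, Φ w = Φ w' := by
    intro w hw w' hw'
    refine hU.is_const_of_deriv_eq_zero (convex_halfSpace_re_gt 0).isPreconnected
      (fun x hx => (hder x hx).differentiableAt.differentiableWithinAt) (fun x hx => (hder x hx).deriv) hw hw'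
  have hlim : Tendsto (fun x : ℝ => Φ x) atTop (𝓝 1) := by
    have t1 : Tendsto (fun x : ℝ => La h0 x) atTop (𝓝 0) := by
      have t2 : Tendsto (fun x : ℝ => 1 / (x + 1 / 2)) atTop (𝓝 0) :=
        tendsto_const_nhds.div_atTop (tendsto_atTop_add_const_right _ _ tendsto_id)
      refine squeeze_zero_norm' ?_ t2
      filter_upwards [eventually_gt_atTop 0] with x hx
      exact La_small hx
    have t3 : Tendsto (fun x : ℝ => exp (La h0 x)) atTop (𝓝 1) := by
      have := (Complex.continuous_exp.tendsto 0).comp t1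
      rwa [Complex.exp_zero] at this
    have t4 : Tendsto (fun x : ℝ => ((x : ℂ) + 1 / 2) / (x + 3 / 2)) atTop (𝓝 1) := by
      have t5 : Tendsto (fun x : ℝ => 1 - 1 / (x + 3 / 2)) atTop (𝓝 (1 - 0)) :=
        tendsto_const_nhds.sub
          (tendsto_const_nhds.div_atTop (tendsto_atTop_add_const_right _ _ tendsto_id))
      have t6 := (Complex.continuous_ofReal.tendsto _).comp t5
      rw [sub_zero, Complex.ofReal_one] at t6
      refine t6.congr' ?_
      filter_upwards [eventually_gt_atTop 0] with x hx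
      have h4 : ((x : ℂ) + 3 / 2) ≠ 0 := n3 x (by simpa using hx)
      simp only [Function.comp_apply]
      have e : ((x : ℂ) + 1 / 2) = (x + 3 / 2) - 1 := by ring
      rw [e, sub_div, div_self h4]
      push_cast
      rfl
    have := t3.mul t4
    rwa [mul_one] at this
  have h1 : Φ z = 1 := by
    refine tendsto_nhds_unique ?_ hlim
    refine tendsto_const_nhds.congr' ?_
    filter_upwards [eventually_gt_atTop 0] with x hx
    exact hconst z hz x (by simpa using hx)
  have h2 := n1 z hz
  have h3 := n3 z hz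
  rw [hΦ] at h1
  simp only at h1
  rw [Complex.exp_neg]
  have h4 : exp (La h0 z) ≠ 0 := exp_ne_zero _
  field_simp at h1 ⊢
  exact h1.symm

/-- the integral over `(0, 1]` -/
noncomputable def Kf (s : ℂ) : ℂ := ∫ v in Ioc (0 : ℝ) 1, (wt v : ℂ) * exp (-(s * v))

/-- the integral over `[1, ∞)` -/
noncomputable def J1 (s : ℂ) : ℂ := ∫ v in Ici (1 : ℝ), (wt v : ℂ) * exp (-(s * v))

theorem w_int {s : ℂ} (hs : 1 < s.re) : IntegrableOn (fun v : ℝ => (wt v : ℂ) * exp (-(s * v))) (Ioi 0) := by
  have h1 : 0 < (s - 1).re := by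
    rw [Complex.sub_re, Complex.one_re]
    linarith
  have h2 := h0_HL.int h1
  rw [← integrable_indicator_iff measurableSet_Ioi]
  refine h2.congr (Eventually.of_forall fun v => ?_)
  simp only
  rcases le_or_gt v 0 with hv | hv
  · rw [h0_neg hv, indicator_of_notMem (by simpa using hv), zero_mul]
  · rw [h0_pos hv, indicator_of_mem (show v ∈ Ioi (0 : ℝ) from hv)]
    push_cast
    rw [mul_assoc, ← Complex.exp_add]
    congr 2
    ring

theorem La_eq {s : ℂ} (hs : 1 < s.re) : La h0 (s - 1) = Kf s + J1 s := by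
  have h1 : La h0 (s - 1) = ∫ v in Ioi (0 : ℝ), (wt v : ℂ) * exp (-(s * v)) := by
    unfold La
    rw [← integral_indicator measurableSet_Ioi]
    refine integral_congr_ae (Eventually.of_forall fun v => ?_)
    simp only
    rcases le_or_gt v 0 with hv | hv
    · rw [h0_neg hv, indicator_of_notMem (by simpa using hv), zero_mul]
    · rw [h0_pos hv, indicator_of_mem (show v ∈ Ioi (0 : ℝ) from hv)]
      push_cast
      rw [mul_assoc, ← Complex.exp_add]
      congr 2
      ring
  rw [h1]
  unfold Kf J1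
  rw [integral_Ici_eq_integral_Ioi, ← setIntegral_union (Ioc_disjoint_Ioi le_rfl) measurableSet_Ioi
    ((w_int hs).mono_set Ioc_subset_Ioi_self) ((w_int hs).mono_set (Ioi_subset_Ioi zero_le_one)),
    Ioc_union_Ioi_eq_Ioi zero_le_one]

/-- the discrete sum -/
noncomputable def DZ (s : ℂ) : ℂ := ∑' j, (cz j : ℂ) * exp (-(s * gr j))

theorem DZ_eq {s : ℂ} (hs : 1 < s.re) : DZ s = J1 s + Et s := by
  have hint : IntegrableOn (fun v : ℝ => (wt v : ℂ) * exp (-(s * v))) (⋃ j, cell j) := by
    rw [cell_union]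
    refine (w_int hs).mono_set fun v hv => ?_
    have : (1 : ℝ) ≤ v := hv
    show (0 : ℝ) < v
    linarith
  have h1 := hasSum_integral_iUnion cell_meas cell_disj hint
  rw [cell_union] at h1
  have h2 := h1.add (Et_summable (s := s) (by linarith)).hasSum
  unfold DZ J1 Et
  rw [← h2.tsum_eq]
  refine tsum_congr fun j => ?_
  unfold Ej cz
  have i1 : IntegrableOn (fun v : ℝ => (wt v : ℂ) * exp (-(s * v))) (cell j) :=
    hint.mono_set (subset_iUnion _ j)
  rw [← integral_add i1 (Ej_int j s)]
  have e1 : ∀ v : ℝ, (wt v : ℂ) * exp (-(s * v)) + (wt v : ℂ) * (exp (-(s * gr j)) - exp (-(s * v))) =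
      (wt v : ℂ) * exp (-(s * gr j)) := by
    intro v
    ring
  simp only [e1]
  rw [integral_mul_const, integral_complex_ofReal]

/-- `Kf` is entire, bounded on half planes -/
theorem Kf_facts : (∀ s : ℂ, -1 < s.re → DifferentiableAt ℂ Kf s) ∧
    ∀ s : ℂ, -1 ≤ s.re → ‖Kf s‖ ≤ Real.exp 2 := by
  constructor
  · intro s hs
    set h : ℝ → ℂ := fun v => (Ioc (0 : ℝ) 1).indicator (fun v => ((wt v * Real.exp v : ℝ) : ℂ)) v with hh
    have H : HL h := by
      constructor
      · intro u hu
        rw [hh]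
        simp only
        rw [indicator_of_notMem]
        intro hc
        linarith [hc.1]
      · rw [hh]
        refine (memLp_indicator_iff_restrict measurableSet_Ioc).2 ?_
        refine MemLp.of_bound (C := Real.exp 2)
          ((Complex.measurable_ofReal.comp (wt_meas.mul (by fun_prop))).aestronglyMeasurable) ?_
        filter_upwards [ae_restrict_mem measurableSet_Ioc] with v hv
        rw [Complex.norm_real, Real.norm_of_nonneg (mul_nonneg (wt_nonneg hv.1) (Real.exp_pos _).le)]
        calc wt v * Real.exp v ≤ Real.exp (v / 2) * Real.exp v :=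
              mul_le_mul_of_nonneg_right (wt_le hv.1) (Real.exp_pos _).le
          _ = Real.exp (v / 2 + v) := (Real.exp_add _ _).symm
          _ ≤ Real.exp 2 := Real.exp_le_exp.2 (by linarith [hv.2])
    have e : Kf = fun z => La h (z + 1) := by
      funext z
      unfold Kf La
      rw [← integral_indicator measurableSet_Ioc]
      refine integral_congr_ae (Eventually.of_forall fun v => ?_)
      simp only [hh]
      by_cases hv : v ∈ Ioc (0 : ℝ) 1
      · rw [indicator_of_mem hv, indicator_of_mem hv]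
        push_cast
        rw [mul_assoc, ← Complex.exp_add]
        congr 2
        ring
      · rw [indicator_of_notMem hv, indicator_of_notMem hv, zero_mul]
    rw [e]
    have h1 : 0 < (s + 1).re := by
      rw [Complex.add_re, Complex.one_re]
      linarith
    exact (H.diff h1).comp s (f := fun z : ℂ => z + 1) (by fun_prop)
  · intro s hs
    unfold Kf
    have h1 := norm_setIntegral_le_of_norm_le_const (μ := volume) (s := Ioc (0 : ℝ) 1)
      (f := fun v : ℝ => (wt v : ℂ) * exp (-(s * v))) (C := Real.exp 2) measure_Ioc_lt_top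
      (fun v hv => by
        rw [norm_mul, Complex.norm_real, Real.norm_of_nonneg (wt_nonneg hv.1), norm_exp_neg']
        calc wt v * Real.exp (-(s.re * v)) ≤ Real.exp (v / 2) * Real.exp v := by
              refine mul_le_mul (wt_le hv.1) (Real.exp_le_exp.2 ?_) (Real.exp_pos _).le (Real.exp_pos _).le
              nlinarith [hv.1]
          _ = Real.exp (v / 2 + v) := (Real.exp_add _ _).symm
          _ ≤ Real.exp 2 := Real.exp_le_exp.2 (by linarith [hv.2]))
    simpa using h1

/-- **the exponential of the discrete sum** -/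
theorem exp_DZ {s : ℂ} (hs : 1 < s.re) :
    exp (-DZ s) = (s - 1 / 2) / (s + 1 / 2) * exp (Kf s - Et s) := by
  have h1 : 0 < (s - 1).re := by
    rw [Complex.sub_re, Complex.one_re]
    linarith
  have h2 := frullani h1
  rw [La_eq hs] at h2
  have h3 : -DZ s = -(Kf s + J1 s) + (Kf s - Et s) := by
    rw [DZ_eq hs]
    ring
  rw [h3, Complex.exp_add, h2]
  congr 2
  · ring
  · ring

theorem cz_sum : Summable fun j => |cz j| * Real.exp (-(1 * gr j)) := by
  have hint : IntegrableOn (fun v : ℝ => Real.exp 1 * Real.exp (-(v / 2))) (Ici 1) := by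
    have h1 : IntegrableOn (fun v : ℝ => Real.exp (-(1 / 2) * v)) (Ioi 1) :=
      integrableOn_exp_mul_Ioi (by norm_num) 1
    rw [integrableOn_Ici_iff_integrableOn_Ioi]
    have h2 : IntegrableOn (fun v : ℝ => Real.exp 1 * Real.exp (-(1 / 2) * v)) (Ioi 1) :=
      Integrable.const_mul h1 _
    refine h2.congr_fun (fun v _ => ?_) measurableSet_Ioi
    simp only
    congr 2
    ring
  rw [← cell_union] at hint
  have h1 := (hasSum_integral_iUnion cell_meas cell_disj hint).summable
  refine Summable.of_nonneg_of_le (fun j => by positivity) (fun j => ?_) h1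
  rw [abs_of_nonneg (cz_nonneg j)]
  unfold cz
  rw [← integral_mul_const]
  refine setIntegral_mono_on ((wt_int j).mul_const _) (hint.mono_set (subset_iUnion _ j)) (cell_meas j)
    fun v hv => ?_
  have hv0 : 0 < v := by linarith [cell_pos hv]
  calc wt v * Real.exp (-(1 * gr j)) ≤ Real.exp (v / 2) * Real.exp (1 - v) := by
        refine mul_le_mul (wt_le hv0) (Real.exp_le_exp.2 ?_) (Real.exp_pos _).le (Real.exp_pos _).le
        linarith [step_le_one j, hv.2]
    _ = Real.exp 1 * Real.exp (-(v / 2)) := by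
      rw [← Real.exp_add, ← Real.exp_add]
      congr 1
      ring

end Pool.Agent.Q5.ZP
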