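import Pool.Agent.Q5.BP.Lap

/-!
# A discrete measure near `2 sinh(v/2)/v dv`
-/

set_option autoImplicit false

open MeasureTheory Filter Topology Set Complex
open Pool.Agent.Q5.BP (HL La norm_exp_neg')

namespace Pool.Agent.Q5.ZP

/-- the weight `2 sinh(v/2)/v` -/
noncomputable def wt (v : ℝ) : ℝ := (Real.exp (v / 2) - Real.exp (-(v / 2))) / v

theorem wt_nonneg {v : ℝ} (hv : 0 < v) : 0 ≤ wt v := by
  unfold wt
  have h1 : Real.exp (-(v / 2)) ≤ Real.exp (v / 2) := Real.exp_le_exp.2 (by linarith)
  exact div_nonneg (by linarith) hv.le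

theorem wt_le {v : ℝ} (hv : 0 < v) : wt v ≤ Real.exp (v / 2) := by
  unfold wt
  rw [div_le_iff₀ hv]
  have h1 : 1 - v ≤ Real.exp (-v) := by
    have := Real.add_one_le_exp (-v)
    linarith
  have h2 : Real.exp (-(v / 2)) = Real.exp (v / 2) * Real.exp (-v) := by
    rw [← Real.exp_add]
    congr 1
    ring
  rw [h2]
  have h3 := Real.exp_pos (v / 2)
  nlinarith

theorem wt_meas : Measurable wt := by
  unfold wt
  fun_prop

theorem wt_contOn : ContinuousOn wt (Ioi 0) := by
  unfold wt
  refine ContinuousOn.div (by fun_prop) continuousOn_id fun v hv => ?_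
  exact (show (0 : ℝ) < v from hv).ne'

/-! ### the grid -/

/-- the grid -/
noncomputable def gr : ℕ → ℝ
  | 0 => 1
  | j + 1 => gr j + Real.exp (-Real.exp (gr j))

theorem gr_zero : gr 0 = 1 := rfl

theorem gr_succ (j : ℕ) : gr (j + 1) = gr j + Real.exp (-Real.exp (gr j)) := rfl

theorem gr_lt (j : ℕ) : gr j < gr (j + 1) := by
  rw [gr_succ]
  linarith [Real.exp_pos (-Real.exp (gr j))]

theorem gr_mono : StrictMono gr := strictMono_nat_of_lt_succ gr_lt

theorem gr_ge (j : ℕ) : 1 ≤ gr j := by
  rw [← gr_zero]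
  exact gr_mono.monotone (Nat.zero_le j)

theorem step_le (j : ℕ) : gr (j + 1) - gr j ≤ Real.exp (-Real.exp (gr j)) := by
  rw [gr_succ]
  linarith

theorem step_le_one (j : ℕ) : gr (j + 1) - gr j ≤ 1 := by
  refine (step_le j).trans ?_
  rw [Real.exp_le_one_iff]
  linarith [Real.exp_pos (gr j)]

theorem gr_tendsto : Tendsto gr atTop atTop := by
  refine tendsto_atTop_atTop_of_monotone gr_mono.monotone fun U => ?_
  by_contra hno
  push Not at hno
  set c : ℝ := Real.exp (-Real.exp U) with hc
  have hc0 : 0 < c := Real.exp_pos _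
  have h1 : ∀ j : ℕ, j * c ≤ gr j := by
    intro j
    induction j with
    | zero =>
      rw [Nat.cast_zero, zero_mul]
      linarith [gr_ge 0]
    | succ j ih =>
      rw [gr_succ]
      have h2 : c ≤ Real.exp (-Real.exp (gr j)) := by
        rw [hc]
        apply Real.exp_le_exp.2
        have := Real.exp_le_exp.2 (hno j).le
        linarith
      push_cast
      linarith
  obtain ⟨j, hj⟩ := exists_nat_gt (U / c)
  rw [div_lt_iff₀ hc0] at hj
  linarith [h1 j, hno j]

/-- the cells -/
def cell (j : ℕ) : Set ℝ := Ico (gr j) (gr (j + 1))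

theorem cell_meas (j : ℕ) : MeasurableSet (cell j) := measurableSet_Ico

theorem cell_disj : Pairwise (Function.onFun Disjoint cell) :=
  gr_mono.monotone.pairwise_disjoint_on_Ico_succ

theorem cell_union : ⋃ j, cell j = Ici 1 := by
  have h1 := gr_tendsto
  ext v
  rw [mem_iUnion, mem_Ici]
  constructor
  · rintro ⟨j, hj⟩
    exact (gr_ge j).trans hj.1
  · intro hv
    obtain ⟨n, hn⟩ := (h1.eventually_gt_atTop v).exists
    have hex : ∃ n, v < gr n := ⟨n, hn⟩
    classical
    have h2 := Nat.find_spec hex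
    have h3 : Nat.find hex ≠ 0 := by
      intro h0
      rw [h0, gr_zero] at h2
      linarith
    obtain ⟨j, hj⟩ := Nat.exists_eq_succ_of_ne_zero h3
    refine ⟨j, ?_, ?_⟩
    · have := Nat.find_min hex (m := j) (by omega)
      exact not_lt.1 this
    · rw [← Nat.succ_eq_add_one, ← hj]
      exact h2

theorem cell_pos {j : ℕ} {v : ℝ} (hv : v ∈ cell j) : 1 ≤ v := (gr_ge j).trans hv.1

/-- the masses -/
noncomputable def cz (j : ℕ) : ℝ := ∫ v in cell j, wt v

theorem wt_int (j : ℕ) : IntegrableOn wt (cell j) := by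
  have h1 : ContinuousOn wt (Icc (gr j) (gr (j + 1))) :=
    wt_contOn.mono fun v hv => (by linarith [gr_ge j, hv.1] : (0 : ℝ) < v)
  exact h1.integrableOn_Icc.mono_set Ico_subset_Icc_self

theorem cz_nonneg (j : ℕ) : 0 ≤ cz j := by
  unfold cz
  refine setIntegral_nonneg (cell_meas j) fun v hv => wt_nonneg ?_
  linarith [cell_pos hv]

/-- the elementary inequality -/
theorem min_bound {y z : ℝ} (hy : 0 ≤ y) (hz : 1 ≤ z) :
    min 2 (y * Real.exp (-z)) ≤ 2 * (1 + Real.log (1 + y)) / z := by
  have hL : 0 ≤ Real.log (1 + y) := Real.log_nonneg (by linarith)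
  set L := Real.log (1 + y) with hLdef
  rcases le_or_gt z (1 + L) with h | h
  · refine (min_le_left _ _).trans ?_
    rw [le_div_iff₀ (by linarith)]
    linarith
  · refine (min_le_right _ _).trans ?_
    rw [le_div_iff₀ (by linarith)]
    have h1 : y ≤ Real.exp L := by
      rw [hLdef, Real.exp_log (by linarith)]
      linarith
    have h2 : y * Real.exp (-z) ≤ Real.exp (-(z - L)) := by
      calc y * Real.exp (-z) ≤ Real.exp L * Real.exp (-z) :=
            mul_le_mul_of_nonneg_right h1 (Real.exp_pos _).le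
        _ = Real.exp (-(z - L)) := by
          rw [← Real.exp_add]
          congr 1
          ring
    have h3 : Real.exp (-(z - L)) * (z - L) ≤ 1 := by
      have h4 := Real.add_one_le_exp (z - L)
      rw [Real.exp_neg, inv_mul_le_iff₀ (Real.exp_pos _)]
      linarith
    have h5 : Real.exp (-(z - L)) ≤ 1 := by
      rw [Real.exp_le_one_iff]
      linarith
    have h6 : y * Real.exp (-z) * z ≤ Real.exp (-(z - L)) * z :=
      mul_le_mul_of_nonneg_right h2 (by linarith)
    have h7 : Real.exp (-(z - L)) * z = Real.exp (-(z - L)) * (z - L) + Real.exp (-(z - L)) * L := by ring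
    nlinarith

/-- the error of one cell -/
noncomputable def Ej (j : ℕ) (s : ℂ) : ℂ :=
  ∫ v in cell j, (wt v : ℂ) * (exp (-(s * gr j)) - exp (-(s * v)))

/-- the bound of one cell -/
noncomputable def Mj (j : ℕ) : ℝ := ∫ v in cell j, 2 * Real.exp 1 * Real.exp (-(v / 4))

theorem exp_diff_le {s : ℂ} (hs : -(1 / 4) ≤ s.re) {a b : ℝ} (ha : 1 ≤ a) (hab : a ≤ b) :
    ‖exp (-(s * a)) - exp (-(s * b))‖ ≤ Real.exp (b / 4) * min 2 (‖s‖ * (b - a)) := by
  have hb : 0 ≤ b := by linarith
  have hn : ∀ c ∈ Icc a b, ‖exp (-(s * c))‖ ≤ Real.exp (b / 4) := by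
    intro c hc
    rw [norm_exp_neg']
    apply Real.exp_le_exp.2
    have h0 : 0 ≤ c := by linarith [hc.1]
    nlinarith [hc.2]
  rw [mul_min_of_nonneg _ _ (Real.exp_pos _).le]
  refine le_min ?_ ?_
  · refine (norm_sub_le _ _).trans ?_
    have h1 := hn a ⟨le_rfl, hab⟩
    have h2 := hn b ⟨hab, le_rfl⟩
    linarith
  · have h1 : ∀ c ∈ Icc a b, HasDerivWithinAt (fun c : ℝ => exp (-(s * c))) (-(s * exp (-(s * c)))) (Icc a b) c := by
      intro c _
      have h2 : HasDerivAt (fun c : ℝ => -(s * (c : ℂ))) (-s) c := by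
        have h := ((Complex.ofRealCLM.hasDerivAt (x := c)).const_mul s).fun_neg
        simpa using h
      have h3 := h2.cexp
      refine (h3.congr_deriv ?_).hasDerivWithinAt
      ring
    have h2 := (convex_Icc a b).norm_image_sub_le_of_norm_hasDerivWithin_le (C := ‖s‖ * Real.exp (b / 4)) h1
      (fun c hc => by
        rw [norm_neg, norm_mul]
        exact mul_le_mul_of_nonneg_left (hn c hc) (norm_nonneg _))
      (show b ∈ Icc a b from ⟨hab, le_rfl⟩) (show a ∈ Icc a b from ⟨le_rfl, hab⟩)
    refine h2.trans (le_of_eq ?_)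
    rw [Real.norm_eq_abs, abs_of_nonpos (by linarith)]
    ring

theorem Ej_int (j : ℕ) (s : ℂ) : IntegrableOn
    (fun v : ℝ => (wt v : ℂ) * (exp (-(s * gr j)) - exp (-(s * v)))) (cell j) := by
  have h1 : ContinuousOn (fun v : ℝ => (wt v : ℂ) * (exp (-(s * gr j)) - exp (-(s * v))))
      (Icc (gr j) (gr (j + 1))) := by
    refine ContinuousOn.mul ?_ (by fun_prop)
    exact Complex.continuous_ofReal.comp_continuousOn
      (wt_contOn.mono fun v hv => (by linarith [gr_ge j, hv.1] : (0 : ℝ) < v))
  exact h1.integrableOn_Icc.mono_set Ico_subset_Icc_self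

theorem Ej_bound (j : ℕ) {s : ℂ} (hs : -(1 / 4) ≤ s.re) :
    ‖Ej j s‖ ≤ (1 + Real.log (1 + ‖s‖)) * Mj j := by
  have hL : 0 ≤ Real.log (1 + ‖s‖) := Real.log_nonneg (by linarith [norm_nonneg s])
  unfold Ej Mj
  rw [← integral_const_mul]
  refine norm_integral_le_of_norm_le ?_ ?_
  · have : Continuous fun v : ℝ => (1 + Real.log (1 + ‖s‖)) * (2 * Real.exp 1 * Real.exp (-(v / 4))) := by
      fun_prop
    exact (this.integrableOn_Icc (a := gr j) (b := gr (j + 1))).mono_set Ico_subset_Icc_self
  · filter_upwards [ae_restrict_mem (cell_meas j)] with v hv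
    have hv1 := cell_pos hv
    have hv0 : 0 < v := by linarith
    rw [norm_mul, Complex.norm_real, Real.norm_of_nonneg (wt_nonneg hv0)]
    have h1 := exp_diff_le hs (gr_ge j) hv.1
    have h2 : ‖s‖ * (v - gr j) ≤ ‖s‖ * Real.exp (-Real.exp (v - 1)) := by
      refine mul_le_mul_of_nonneg_left ?_ (norm_nonneg _)
      have h3 : v - gr j ≤ Real.exp (-Real.exp (gr j)) := by linarith [step_le j, hv.2]
      refine h3.trans (Real.exp_le_exp.2 ?_)
      have h4 : v - 1 ≤ gr j := by linarith [step_le_one j, hv.2]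
      have := Real.exp_le_exp.2 h4
      linarith
    have h3 := min_bound (norm_nonneg s) (Real.one_le_exp (show 0 ≤ v - 1 by linarith))
    calc wt v * ‖exp (-(s * gr j)) - exp (-(s * v))‖
        ≤ Real.exp (v / 2) * (Real.exp (v / 4) * (2 * (1 + Real.log (1 + ‖s‖)) / Real.exp (v - 1))) := by
          refine mul_le_mul (wt_le hv0) (h1.trans ?_) (norm_nonneg _) (Real.exp_pos _).le
          refine mul_le_mul_of_nonneg_left ?_ (Real.exp_pos _).le
          exact (min_le_min_left 2 h2).trans h3
      _ = (1 + Real.log (1 + ‖s‖)) * (2 * Real.exp 1 * Real.exp (-(v / 4))) := by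
        have e : Real.exp (-(v / 4)) = Real.exp (v / 2) * Real.exp (v / 4) / (Real.exp (v - 1) * Real.exp 1) := by
          rw [← Real.exp_add, ← Real.exp_add, ← Real.exp_sub]
          congr 1
          ring
        rw [e]
        have := Real.exp_pos (v - 1)
        have := Real.exp_pos 1
        field_simp

theorem Mj_sum : Summable Mj := by
  have hint : IntegrableOn (fun v : ℝ => 2 * Real.exp 1 * Real.exp (-(v / 4))) (Ici 1) := by
    have h1 : IntegrableOn (fun v : ℝ => Real.exp (-(1 / 4) * v)) (Ioi 1) :=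
      integrableOn_exp_mul_Ioi (by norm_num) 1
    rw [integrableOn_Ici_iff_integrableOn_Ioi]
    have h2 : IntegrableOn (fun v : ℝ => 2 * Real.exp 1 * Real.exp (-(1 / 4) * v)) (Ioi 1) :=
      Integrable.const_mul h1 _
    refine h2.congr_fun (fun v _ => ?_) measurableSet_Ioi
    simp only
    congr 2
    ring
  rw [← cell_union] at hint
  exact (hasSum_integral_iUnion cell_meas cell_disj hint).summable

/-- one cell as a holomorphic function -/
theorem Ej_diff (j : ℕ) {s : ℂ} (hs : -(1 / 4) < s.re) : DifferentiableAt ℂ (Ej j) s := by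
  -- the Laplace transform of the weight on the cell
  set h : ℝ → ℂ := fun v => (cell j).indicator (fun v => ((wt v * Real.exp (v / 4) : ℝ) : ℂ)) v with hh
  have hcont : ContinuousOn (fun v : ℝ => ((wt v * Real.exp (v / 4) : ℝ) : ℂ)) (Icc (gr j) (gr (j + 1))) := by
    refine Complex.continuous_ofReal.comp_continuousOn (ContinuousOn.mul ?_ (by fun_prop))
    exact wt_contOn.mono fun v hv => (by linarith [gr_ge j, hv.1] : (0 : ℝ) < v)
  obtain ⟨B, hB⟩ := isCompact_Icc.exists_bound_of_continuousOn hcont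
  have H : HL h := by
    constructor
    · intro u hu
      rw [hh]
      simp only
      rw [indicator_of_notMem]
      intro hc
      linarith [cell_pos hc]
    · rw [hh]
      refine (memLp_indicator_iff_restrict (cell_meas j)).2 ?_
      haveI : IsFiniteMeasure (volume.restrict (cell j)) :=
        ⟨by rw [Measure.restrict_apply_univ]; exact measure_Ico_lt_top⟩
      refine MemLp.of_bound (C := B) ((hcont.mono Ico_subset_Icc_self).aestronglyMeasurable (cell_meas j)) ?_
      filter_upwards [ae_restrict_mem (cell_meas j)] with v hv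
      exact hB v (Ico_subset_Icc_self hv)
  have e : Ej j = fun z => (cz j : ℂ) * exp (-(z * gr j)) - La h (z + ((1 / 4 : ℝ) : ℂ)) := by
    funext z
    unfold Ej cz La
    have i1 : IntegrableOn (fun v : ℝ => (wt v : ℂ) * exp (-(z * gr j))) (cell j) :=
      ((wt_int j).ofReal).mul_const _
    have i2 : IntegrableOn (fun v : ℝ => (wt v : ℂ) * exp (-(z * v))) (cell j) := by
      have h1 : ContinuousOn (fun v : ℝ => (wt v : ℂ) * exp (-(z * v))) (Icc (gr j) (gr (j + 1))) := by
        refine ContinuousOn.mul ?_ (by fun_prop)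
        exact Complex.continuous_ofReal.comp_continuousOn
          (wt_contOn.mono fun v hv => (by linarith [gr_ge j, hv.1] : (0 : ℝ) < v))
      exact h1.integrableOn_Icc.mono_set Ico_subset_Icc_self
    have e1 : (∫ v in cell j, (wt v : ℂ) * (exp (-(z * gr j)) - exp (-(z * v)))) =
        (∫ v in cell j, (wt v : ℂ) * exp (-(z * gr j))) - ∫ v in cell j, (wt v : ℂ) * exp (-(z * v)) := by
      rw [← integral_sub i1 i2]
      refine integral_congr_ae (Eventually.of_forall fun v => ?_)
      simp only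
      ring
    rw [e1, integral_mul_const, integral_complex_ofReal]
    congr 1
    rw [← integral_indicator (cell_meas j)]
    refine integral_congr_ae (Eventually.of_forall fun v => ?_)
    simp only [hh]
    by_cases hv : v ∈ cell j
    · rw [indicator_of_mem hv, indicator_of_mem hv]
      push_cast
      rw [mul_assoc, ← Complex.exp_add]
      congr 2
      ring
    · rw [indicator_of_notMem hv, indicator_of_notMem hv, zero_mul]
  rw [e]
  refine DifferentiableAt.sub (by fun_prop) ?_
  have h1 : 0 < (s + ((1 / 4 : ℝ) : ℂ)).re := by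
    rw [Complex.add_re, Complex.ofReal_re]
    linarith
  exact (H.diff h1).comp s (f := fun z : ℂ => z + ((1 / 4 : ℝ) : ℂ)) (by fun_prop)

/-- the total error -/
noncomputable def Et (s : ℂ) : ℂ := ∑' j, Ej j s

theorem Et_summable {s : ℂ} (hs : -(1 / 4) ≤ s.re) : Summable fun j => Ej j s :=
  Summable.of_norm_bounded (Mj_sum.mul_left _) fun j => Ej_bound j hs

theorem Et_bound {s : ℂ} (hs : -(1 / 4) ≤ s.re) : ‖Et s‖ ≤ (1 + Real.log (1 + ‖s‖)) * ∑' j, Mj j := by
  unfold Et
  exact tsum_of_norm_bounded (Mj_sum.hasSum.mul_left _) fun j => Ej_bound j hs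

theorem Et_diff {s : ℂ} (hs : -(1 / 4) < s.re) : DifferentiableAt ℂ Et s := by
  have hU : IsOpen ({z : ℂ | -(1 / 4) < z.re} ∩ Metric.ball 0 (‖s‖ + 1)) :=
    (isOpen_lt continuous_const Complex.continuous_re).inter Metric.isOpen_ball
  have hmem : s ∈ {z : ℂ | -(1 / 4) < z.re} ∩ Metric.ball 0 (‖s‖ + 1) := ⟨hs, by simp⟩
  have h1 := differentiableOn_tsum_of_summable_norm (u := fun j => (1 + Real.log (1 + (‖s‖ + 1))) * Mj j)
    (F := Ej) (Mj_sum.mul_left _) (fun j z hz => (Ej_diff j hz.1).differentiableWithinAt) hU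
    (fun j z hz => by
      have hz1 : -(1 / 4) < z.re := hz.1
      refine (Ej_bound j hz1.le).trans ?_
      have h2 : ‖z‖ < ‖s‖ + 1 := by simpa using hz.2
      have h3 : 0 ≤ Mj j := by
        unfold Mj
        exact integral_nonneg fun v => by positivity
      refine mul_le_mul_of_nonneg_right ?_ h3
      have := Real.log_le_log (by linarith [norm_nonneg z] : 0 < 1 + ‖z‖)
        (by linarith : 1 + ‖z‖ ≤ 1 + (‖s‖ + 1))
      linarith)
  exact (h1 s hmem).differentiableAt (hU.mem_nhds hmem)

theorem Et_zero : Et 0 = 0 := by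
  unfold Et Ej
  simp

end Pool.Agent.Q5.ZP
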