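import Pool.Agent.Q5.ZP.Err
import Pool.Agent.Q5.ZP.SetModel

/-!
# Euler products with a pole at `s = 1` and centre `1/2`: linear independence and the random model
-/

set_option autoImplicit false

open MeasureTheory Filter Topology Set Complex
open Pool.Agent.TH942.ES (Sys zv xv cv cP lamS)
open Pool.Agent.TH270.MS (Sh Cn BM Pl)
open Pool.Agent.TH270.RS (cS')
open Pool.Agent.Q5.LI (RootsH multH LinInd RandomModel li_iff LinS RandomModelS li_iffS)
open Pool.Agent.Q5.DC (nP)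
open Pool.Agent.Q5.BP (MSq FB BSq)

namespace Pool.Agent.Q5.ZP

variable {n : ℕ} {α : Nat.Primes → Fin n → ℂ} {F : ℂ → ℂ} {m : ℕ}

/-- under the Riemann hypothesis the leading coefficient exists and is positive -/
theorem lead_existsP (R : RootsH α) (hF : TempP α m F) (h : RHP F) :
    ∃ (r : ℕ) (A : ℝ), 0 < A ∧
      Tendsto (fun s : ℂ => (-1) ^ m * F s / (s - 1 / 2) ^ r) (𝓝[≠] (1 / 2 : ℂ)) (𝓝 (A : ℂ)) := by
  obtain ⟨e, G, g, p, κ, η, C, he, Q, hη4, hG1, hGF⟩ := cnP R hF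
  -- the zeros of `G₀`
  have hz : ∀ s : ℂ, 0 < s.re → G0 m G s ≠ 0 := by
    intro s hs
    have hη := Q.hη
    by_cases h1 : s = 1 / 2
    · rw [h1]
      unfold G0
      have e : (1 / 2 + 1 / 2 : ℂ) = 1 := by norm_num
      rw [e, one_pow, div_one]
      exact mul_ne_zero hG1 (Complex.exp_ne_zero _)
    · rw [G0_eq (hGF s (by linarith) h1)]
      refine mul_ne_zero (mul_ne_zero (pow_ne_zero _ (div_ne_zero (sub_ne_zero.2 h1)
        (half_ne (by linarith)))) (h _ (by rw [half_re]; linarith) fun h2 => h1 ?_)) (Complex.exp_ne_zero _)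
      linear_combination h2
  obtain ⟨q, h3, -⟩ := Q.sq hz (r := (p : ℝ)) (by simp)
  set A : ℝ := Real.exp (p * Real.eulerMascheroniConstant - q - m * K0) with hA
  have hA0 : 0 < A := Real.exp_pos _
  have hlog : Real.log A = p * Real.eulerMascheroniConstant - q - m * K0 := Real.log_exp _
  have hkey := key_iff Q hη4 hG1 hGF (p : ℝ) hA0
  obtain ⟨-, r, hr, h4⟩ := hkey.2 ⟨hz, by simp, by
    rw [h3, hlog]
    congr 2
    ring⟩
  exact ⟨r, A, hA0, h4⟩

/-- **The criterion** for one Euler product with a pole. -/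
theorem li_tfaeP (R : RootsH α) (hF : TempP α m F) {ρ A : ℝ} (hA : 0 < A) :
    (RHP F ∧ LeadP F m ρ A) ∧ LinInd (multH F) ↔
      BSq (dZ α m ρ A) ∧ RandomModel (multH F) fun x => Real.log x * dZ α m ρ A x := by
  obtain ⟨hW, t, -, p⟩ := errP R hF (ρ := ρ) hA
  have h1 := t.out 0 1
  constructor
  · rintro ⟨h2, h3⟩
    obtain ⟨V, -, P⟩ := p h2
    exact ⟨h1.1 h2, (li_iff hW P).1 h3⟩
  · rintro ⟨h2, h3⟩
    have h4 := h1.2 h2
    obtain ⟨V, -, P⟩ := p h4
    exact ⟨h4, (li_iff hW P).2 h3⟩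

/-- **The criterion** for one Euler product with a pole, independence of the set of the ordinates. -/
theorem set_tfaeP (R : RootsH α) (hF : TempP α m F) {ρ A : ℝ} (hA : 0 < A) :
    (RHP F ∧ LeadP F m ρ A) ∧ LinS (multH F) ↔
      BSq (dZ α m ρ A) ∧ RandomModelS (multH F) fun x => Real.log x * dZ α m ρ A x := by
  obtain ⟨hW, t, -, p⟩ := errP R hF (ρ := ρ) hA
  have h1 := t.out 0 1
  constructor
  · rintro ⟨h2, h3⟩
    obtain ⟨V, -, P⟩ := p h2
    exact ⟨h1.1 h2, (li_iffS hW P).1 h3⟩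
  · rintro ⟨h2, h3⟩
    have h4 := h1.2 h2
    obtain ⟨V, -, P⟩ := p h4
    exact ⟨h4, (li_iffS hW P).2 h3⟩

/-- the criterion without the constants -/
theorem set_existsP (R : RootsH α) (hF : TempP α m F) :
    RHP F ∧ LinS (multH F) ↔ ∃ ρ A : ℝ, 0 < A ∧
      BSq (dZ α m ρ A) ∧ RandomModelS (multH F) fun x => Real.log x * dZ α m ρ A x := by
  constructor
  · rintro ⟨h1, h2⟩
    obtain ⟨r, A, hA, h3⟩ := lead_existsP R hF h1
    exact ⟨(r : ℝ), A, hA, (set_tfaeP R hF hA).1 ⟨⟨h1, r, rfl, h3⟩, h2⟩⟩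
  · rintro ⟨ρ, A, hA, h⟩
    have h1 := (set_tfaeP R hF hA).2 h
    exact ⟨h1.1.1, h1.2⟩

/-- the criterion without the constants -/
theorem li_existsP (R : RootsH α) (hF : TempP α m F) :
    RHP F ∧ LinInd (multH F) ↔ ∃ ρ A : ℝ, 0 < A ∧
      BSq (dZ α m ρ A) ∧ RandomModel (multH F) fun x => Real.log x * dZ α m ρ A x := by
  constructor
  · rintro ⟨h1, h2⟩
    obtain ⟨r, A, hA, h3⟩ := lead_existsP R hF h1
    exact ⟨(r : ℝ), A, hA, (li_tfaeP R hF hA).1 ⟨⟨h1, r, rfl, h3⟩, h2⟩⟩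
  · rintro ⟨ρ, A, hA, h⟩
    have h1 := (li_tfaeP R hF hA).2 h
    exact ⟨h1.1.1, h1.2⟩

end Pool.Agent.Q5.ZP
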