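import Pool.Agent.Q5.ZP.Comb

/-!
# Euler products with a pole at `s = 1` and centre `1/2`: the continuation
-/

set_option autoImplicit false

open MeasureTheory Filter Topology Set Complex
open Pool.Agent.TH942.LS (Dat)
open Pool.Agent.TH942.SL (DD)
open Pool.Agent.TH942.ES (Sys zv xv cv cP LE lamS)
open Pool.Agent.TH270.MS (Sh sh_le sh_meas Cn BM Pl sh_eq)
open Pool.Agent.TH270.RS (cS' dat' DD_neg)
open Pool.Agent.Q5.LI (RootsH multH factorH)
open Pool.Agent.Q5.DC (nP two_le)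

namespace Pool.Agent.Q5.ZP

variable {n : ℕ} {α : Nat.Primes → Fin n → ℂ} {F : ℂ → ℂ} {m : ℕ}

/-- `F` continues the Euler product to a half plane `Re s > 1/2 - η`, with a pole of order `m` at `s = 1` and no other
singularity, and polynomial growth -/
structure TempP (α : Nat.Primes → Fin n → ℂ) (m : ℕ) (F : ℂ → ℂ) : Prop where
  cont : ∃ (η C : ℝ) (κ : ℕ) (G : ℂ → ℂ), 0 < η ∧ G 1 ≠ 0 ∧
    (∀ s : ℂ, 1 / 2 - η < s.re → DifferentiableAt ℂ G s ∧ ‖G s‖ ≤ C * (1 + ‖s‖) ^ κ) ∧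
    ∀ s : ℂ, 1 / 2 - η < s.re → s ≠ 1 → G s = (s - 1) ^ m * F s
  prod : ∀ s : ℂ, 1 < s.re →
    HasProd (fun p : Nat.Primes => (∏ j, (1 - α p j * (p : ℂ) ^ (-s)))⁻¹) (F s)

/-- the auxiliary function -/
noncomputable def G0 (m : ℕ) (G : ℂ → ℂ) (s : ℂ) : ℂ :=
  G (1 / 2 + s) / (s + 1 / 2) ^ m * exp (m * (Kf s - Et s))

theorem half_ne {s : ℂ} (hs : -(1 / 4) < s.re) : s + 1 / 2 ≠ 0 := by
  intro h
  have h1 := congrArg Complex.re h
  simp only [Complex.add_re, Complex.zero_re] at h1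
  norm_num at h1
  linarith

theorem half_re (s : ℂ) : (1 / 2 + s).re = 1 / 2 + s.re := by
  rw [Complex.add_re]
  norm_num

theorem G0_diff {G : ℂ → ℂ} {s : ℂ} (h1 : DifferentiableAt ℂ G (1 / 2 + s)) (h2 : -(1 / 4) < s.re) :
    DifferentiableAt ℂ (G0 m G) s := by
  unfold G0
  have e1 : DifferentiableAt ℂ (fun s => G (1 / 2 + s)) s := by
    have h3 : DifferentiableAt ℂ (fun s : ℂ => 1 / 2 + s) s := by fun_prop
    exact h1.comp s h3
  have e2 : DifferentiableAt ℂ (fun s : ℂ => (s + 1 / 2) ^ m) s := by fun_prop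
  have e3 : DifferentiableAt ℂ (fun s => (m : ℂ) * (Kf s - Et s)) s :=
    ((Kf_facts.1 s (by linarith)).sub (Et_diff h2)).const_mul _
  exact (e1.div e2 (pow_ne_zero _ (half_ne h2))).mul e3.cexp

theorem G0_grow {G : ℂ → ℂ} {η C : ℝ} {κ : ℕ}
    (hG : ∀ s : ℂ, 1 / 2 - η < s.re → ‖G s‖ ≤ C * (1 + ‖s‖) ^ κ) (m : ℕ) :
    ∃ (C' : ℝ) (κ' : ℕ), ∀ s : ℂ, -η < s.re → -(1 / 4) < s.re → ‖G0 m G s‖ ≤ C' * (1 + ‖s‖) ^ κ' := by
  obtain ⟨N, hN⟩ := exists_nat_ge (∑' j, Mj j)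
  refine ⟨|C| * 2 ^ κ * 4 ^ m * (Real.exp (m * Real.exp 2) * Real.exp (m * N)), κ + m * N, fun s h1 h2 => ?_⟩
  have hs0 := norm_nonneg s
  have e1 : ‖G (1 / 2 + s)‖ ≤ |C| * 2 ^ κ * (1 + ‖s‖) ^ κ := by
    have h3 := hG (1 / 2 + s) (by rw [half_re]; linarith)
    have h4 : ‖(1 / 2 : ℂ) + s‖ ≤ 1 / 2 + ‖s‖ := by
      refine (norm_add_le _ _).trans (le_of_eq ?_)
      norm_num
    calc ‖G (1 / 2 + s)‖ ≤ C * (1 + ‖(1 / 2 : ℂ) + s‖) ^ κ := h3
      _ ≤ |C| * (1 + ‖(1 / 2 : ℂ) + s‖) ^ κ :=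
        mul_le_mul_of_nonneg_right (le_abs_self C) (by positivity)
      _ ≤ |C| * (2 * (1 + ‖s‖)) ^ κ := by
        refine mul_le_mul_of_nonneg_left (pow_le_pow_left₀ (by positivity) ?_ κ) (abs_nonneg _)
        linarith
      _ = |C| * 2 ^ κ * (1 + ‖s‖) ^ κ := by
        rw [mul_pow]
        ring
  have e2 : ‖((s + 1 / 2) ^ m)⁻¹‖ ≤ 4 ^ m := by
    rw [norm_inv, norm_pow, ← inv_pow]
    refine pow_le_pow_left₀ (by positivity) ?_ m
    have h3 : (1 / 4 : ℝ) ≤ ‖s + 1 / 2‖ := by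
      have h4 := (le_abs_self _).trans (Complex.abs_re_le_norm (s + 1 / 2))
      have h5 : (s + 1 / 2).re = s.re + 1 / 2 := by
        rw [Complex.add_re]
        norm_num
      rw [h5] at h4
      linarith
    rw [inv_le_comm₀ (by linarith) (by norm_num)]
    linarith
  have e3 : ‖exp (m * (Kf s - Et s))‖ ≤
      Real.exp (m * Real.exp 2) * Real.exp (m * N) * (1 + ‖s‖) ^ (m * N) := by
    have hm : (0 : ℝ) ≤ m := Nat.cast_nonneg m
    have h3 : ‖Kf s - Et s‖ ≤ Real.exp 2 + (1 + Real.log (1 + ‖s‖)) * N := by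
      refine (norm_sub_le _ _).trans (add_le_add (Kf_facts.2 s (by linarith)) ?_)
      refine (Et_bound h2.le).trans ?_
      have := Real.log_nonneg (show 1 ≤ 1 + ‖s‖ by linarith)
      exact mul_le_mul_of_nonneg_left hN (by linarith)
    calc ‖exp (m * (Kf s - Et s))‖ = Real.exp (m * (Kf s - Et s)).re := Complex.norm_exp _
      _ ≤ Real.exp ‖m * (Kf s - Et s)‖ := Real.exp_le_exp.2 (Complex.re_le_norm _)
      _ = Real.exp (m * ‖Kf s - Et s‖) := by rw [norm_mul, Complex.norm_natCast]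
      _ ≤ Real.exp (m * (Real.exp 2 + (1 + Real.log (1 + ‖s‖)) * N)) :=
        Real.exp_le_exp.2 (mul_le_mul_of_nonneg_left h3 hm)
      _ = Real.exp (m * Real.exp 2) * Real.exp (m * N) * Real.exp (Real.log (1 + ‖s‖) * ((m * N : ℕ) : ℝ)) := by
        rw [← Real.exp_add, ← Real.exp_add]
        congr 1
        push_cast
        ring
      _ = _ := by
        congr 1
        rw [mul_comm (Real.log _), Real.exp_nat_mul, Real.exp_log (by linarith)]
  unfold G0
  rw [norm_mul, div_eq_mul_inv, norm_mul]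
  calc ‖G (1 / 2 + s)‖ * ‖((s + 1 / 2) ^ m)⁻¹‖ * ‖exp (m * (Kf s - Et s))‖
      ≤ (|C| * 2 ^ κ * (1 + ‖s‖) ^ κ) * 4 ^ m *
          (Real.exp (m * Real.exp 2) * Real.exp (m * N) * (1 + ‖s‖) ^ (m * N)) := by
        gcongr
    _ = _ := by
      rw [pow_add]
      ring

theorem LE_eq (hF : TempP α m F) {s : ℂ} (hs : 1 / 2 < s.re) : F (1 / 2 + s) = LE nP α s := by
  unfold Pool.Agent.TH942.ES.LE
  have h1 := hF.prod (1 / 2 + s) (by rw [half_re]; linarith)
  rw [← h1.tprod_eq]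
  refine tprod_congr fun p => ?_
  rw [← factorH p (1 / 2 + s)]
  refine Finset.prod_congr rfl fun j _ => ?_
  congr 4
  push_cast
  ring

/-- the value away from `1/2` -/
theorem G0_eq {G : ℂ → ℂ} {s : ℂ} (h : G (1 / 2 + s) = (1 / 2 + s - 1) ^ m * F (1 / 2 + s)) :
    G0 m G s = ((s - 1 / 2) / (s + 1 / 2)) ^ m * F (1 / 2 + s) * exp (m * (Kf s - Et s)) := by
  unfold G0
  rw [h, div_pow]
  have e : (1 / 2 + s - 1 : ℂ) = s - 1 / 2 := by ring
  rw [e]
  ring

theorem cnP (R : RootsH α) (hF : TempP α m F) :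
    ∃ (e : Nat.Primes × ℕ → ℕ) (G g : ℂ → ℂ) (p κ : ℕ) (η C : ℝ), Function.Injective e ∧
      Cn (lz (lamS nP e)) (cc (cS' nP α e) m) (Real.log 2) 1 (G0 m G) g 0 p κ η C ∧ η ≤ 1 / 4 ∧ G 1 ≠ 0 ∧
      ∀ s : ℂ, -η < s.re → s ≠ 1 / 2 → G (1 / 2 + s) = (1 / 2 + s - 1) ^ m * F (1 / 2 + s) := by
  obtain ⟨η₀, C₀, κ₀, G, hη₀, hG1, hG, hGF⟩ := hF.cont
  obtain ⟨C, κ, hgrow⟩ := G0_grow (fun s hs => (hG s hs).2) m
  have E := R.sys
  have := E.cnt
  obtain ⟨e, he⟩ := Countable.exists_injective_nat (Nat.Primes × ℕ)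
  set η : ℝ := min η₀ (1 / 4) with hηdef
  have hη : 0 < η := lt_min hη₀ (by norm_num)
  have hη1 : η ≤ η₀ := min_le_left _ _
  have hη4 : η ≤ 1 / 4 := min_le_right _ _
  have hGF' : ∀ s : ℂ, -η < s.re → s ≠ 1 / 2 → G (1 / 2 + s) = (1 / 2 + s - 1) ^ m * F (1 / 2 + s) := by
    intro s h1 h2
    refine hGF _ (by rw [half_re]; linarith) fun h3 => h2 ?_
    linear_combination h3
  have hd : ∀ s : ℂ, -η < s.re → DifferentiableAt ℂ (G0 m G) s := fun s hs =>
    G0_diff (hG _ (by rw [half_re]; linarith)).1 (by linarith)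
  have D : Dat (lamS nP e) (cS' nP α e) (Real.log 2) 1 := dat' E he
  have hlog2 : Real.log 2 ≤ 1 := by
    have := Real.log_two_lt_d9
    linarith
  have hexp : ∀ s : ℂ, 1 < s.re → s ^ 0 * exp (-DD (lz (lamS nP e)) (cc (cS' nP α e) m) s) = G0 m G s := by
    intro s hs
    have hs1 : s ≠ 1 / 2 := by
      rintro rfl
      norm_num at hs
    rw [pow_zero, one_mul, DD_c D m hs.le, neg_add, Complex.exp_add, DD_neg, E.exp_DD R.real_z he (by linarith),
      ← LE_eq hF (by linarith), G0_eq (hGF' s (by linarith) hs1)]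
    have h1 : -((m : ℂ) * DZ s) = m * (-DZ s) := by ring
    rw [h1, Complex.exp_nat_mul, exp_DZ hs, mul_pow, ← Complex.exp_nat_mul]
    ring
  have hU : IsOpen {s : ℂ | -η < s.re} := isOpen_lt continuous_const Complex.continuous_re
  have hUc : Convex ℝ {s : ℂ | -η < s.re} := convex_halfSpace_re_gt _
  have a1 : AnalyticOnNhd ℂ (G0 m G) {s : ℂ | -η < s.re} :=
    DifferentiableOn.analyticOnNhd (fun z hz => (hd z hz).differentiableWithinAt) hU
  have h0mem : (0 : ℂ) ∈ {s : ℂ | -η < s.re} := by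
    show -η < (0 : ℂ).re
    simpa using hη
  have hfin : analyticOrderAt (G0 m G) 0 ≠ ⊤ := by
    intro htop
    rw [analyticOrderAt_eq_top] at htop
    have h1 := a1.eqOn_of_preconnected_of_eventuallyEq (analyticOnNhd_const (v := (0 : ℂ)))
      hUc.isPreconnected h0mem htop
    have h2 : G0 m G 2 = 0 := h1 (show -η < (2 : ℂ).re by
      simp only [Complex.re_ofNat]
      linarith)
    have h3 := hexp 2 (by norm_num)
    rw [h2, pow_zero, one_mul] at h3
    exact Complex.exp_ne_zero _ h3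
  obtain ⟨p, hp⟩ := ENat.ne_top_iff_exists.1 hfin
  have hm := hp.symm
  rw [(a1 0 h0mem).analyticOrderAt_eq_natCast] at hm
  obtain ⟨g, hg, hg1, hge⟩ := hm
  refine ⟨e, G, g, p, κ, η, C, he, ⟨dat_c D hlog2 m, hη, hd, fun s hs => hgrow s (by linarith) (by linarith),
    hexp, hg, hg1, ?_⟩, hη4, hG1, hGF'⟩
  filter_upwards [hge] with z hz
  rw [hz, sub_zero, smul_eq_mul]

/-- no zeros to the right of the centre -/
def RHP (F : ℂ → ℂ) : Prop := ∀ s : ℂ, 1 / 2 < s.re → s ≠ 1 → F s ≠ 0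

/-- `(-1)^m F(s)/(s - 1/2)^ρ → A` -/
def LeadP (F : ℂ → ℂ) (m : ℕ) (ρ A : ℝ) : Prop :=
  ∃ r : ℕ, ρ = r ∧ Tendsto (fun s : ℂ => (-1) ^ m * F s / (s - 1 / 2) ^ r) (𝓝[≠] (1 / 2 : ℂ)) (𝓝 (A : ℂ))

/-- `∫_0^1 wt` -/
noncomputable def K0 : ℝ := ∫ v in (0 : ℝ)..1, wt v

theorem Kf_zero : Kf 0 = (K0 : ℂ) := by
  unfold Kf K0
  rw [intervalIntegral.integral_of_le zero_le_one, ← integral_complex_ofReal]
  refine setIntegral_congr_fun measurableSet_Ioc fun v _ => ?_
  simp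

/-- comparison of the orders -/
theorem ord_lim {g : ℂ → ℂ} {p r : ℕ} {L : ℂ} (hg : ContinuousAt g 0) (hg0 : g 0 ≠ 0) (hL : L ≠ 0) :
    Tendsto (fun s : ℂ => s ^ p * g s / s ^ r) (𝓝[≠] 0) (𝓝 L) ↔ p = r ∧ g 0 = L := by
  have hg' : Tendsto g (𝓝[≠] 0) (𝓝 (g 0)) := hg.tendsto.mono_left nhdsWithin_le_nhds
  have hpow : ∀ k : ℕ, k ≠ 0 → Tendsto (fun s : ℂ => s ^ k) (𝓝[≠] 0) (𝓝 0) := by
    intro k hk
    have h1 : Tendsto (fun s : ℂ => s ^ k) (𝓝 0) (𝓝 (0 ^ k)) := (continuous_pow k).tendsto 0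
    rw [zero_pow hk] at h1
    exact h1.mono_left nhdsWithin_le_nhds
  constructor
  · intro h
    rcases lt_trichotomy p r with hlt | heq | hgt
    · exfalso
      have h1 := h.mul (hpow (r - p) (by omega))
      rw [mul_zero] at h1
      have h2 : Tendsto g (𝓝[≠] 0) (𝓝 0) := by
        refine h1.congr' ?_
        filter_upwards [self_mem_nhdsWithin] with s hs
        have hs0 : s ≠ 0 := hs
        have e : s ^ r = s ^ p * s ^ (r - p) := by
          rw [← pow_add]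
          congr 1
          omega
        rw [e]
        field_simp
      exact hg0 (tendsto_nhds_unique hg' h2)
    · subst heq
      refine ⟨rfl, ?_⟩
      refine tendsto_nhds_unique (hg'.congr' ?_) h
      filter_upwards [self_mem_nhdsWithin] with s hs
      have hs0 : s ≠ 0 := hs
      field_simp
    · exfalso
      have h1 := (hpow (p - r) (by omega)).mul hg'
      rw [zero_mul] at h1
      refine hL (tendsto_nhds_unique h (h1.congr' ?_))
      filter_upwards [self_mem_nhdsWithin] with s hs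
      have hs0 : s ≠ 0 := hs
      have e : s ^ p = s ^ r * s ^ (p - r) := by
        rw [← pow_add]
        congr 1
        omega
      rw [e]
      field_simp
  · rintro ⟨rfl, rfl⟩
    refine hg'.congr' ?_
    filter_upwards [self_mem_nhdsWithin] with s hs
    have hs0 : s ≠ 0 := hs
    field_simp

/-- the two languages -/
theorem key_iff {G g : ℂ → ℂ} {e : Nat.Primes × ℕ → ℕ} {p κ : ℕ} {η C : ℝ}
    (Q : Cn (lz (lamS nP e)) (cc (cS' nP α e) m) (Real.log 2) 1 (G0 m G) g 0 p κ η C) (hη4 : η ≤ 1 / 4)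
    (hG1 : G 1 ≠ 0)
    (hGF : ∀ s : ℂ, -η < s.re → s ≠ 1 / 2 → G (1 / 2 + s) = (1 / 2 + s - 1) ^ m * F (1 / 2 + s))
    (ρ : ℝ) {A : ℝ} (hA : 0 < A) :
    RHP F ∧ LeadP F m ρ A ↔ (∀ s : ℂ, 0 < s.re → G0 m G s ≠ 0) ∧ (p : ℝ) = (0 : ℕ) + ρ ∧
      g 0 = Real.exp (ρ * Real.eulerMascheroniConstant -
        (ρ * Real.eulerMascheroniConstant - Real.log A - m * K0)) := by
  have hη := Q.hη
  -- zeros
  have hz : RHP F ↔ ∀ s : ℂ, 0 < s.re → G0 m G s ≠ 0 := by
    constructor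
    · intro h s hs
      by_cases h1 : s = 1 / 2
      · rw [h1]
        unfold G0
        have e : (1 / 2 + 1 / 2 : ℂ) = 1 := by norm_num
        rw [e, one_pow, div_one]
        exact mul_ne_zero hG1 (Complex.exp_ne_zero _)
      · rw [G0_eq (hGF s (by linarith) h1)]
        refine mul_ne_zero (mul_ne_zero (pow_ne_zero _ (div_ne_zero (sub_ne_zero.2 h1)
          (half_ne (by linarith)))) (h _ (by rw [half_re]; linarith) fun h2 => h1 ?_)) (Complex.exp_ne_zero _)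
        linear_combination h2
    · intro h s hs hs1 h0
      have h1 := h (s - 1 / 2) (by
        rw [Complex.sub_re]
        norm_num
        linarith)
      have h2 : s - 1 / 2 ≠ 1 / 2 := fun h3 => hs1 (by linear_combination h3)
      rw [G0_eq (hGF (s - 1 / 2) (by
        rw [Complex.sub_re]
        norm_num
        linarith) h2)] at h1
      have e : (1 / 2 + (s - 1 / 2) : ℂ) = s := by ring
      rw [e, h0] at h1
      simp at h1
  rw [hz]
  refine and_congr_right fun _ => ?_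
  -- the leading coefficient
  set L : ℂ := ((A * Real.exp (m * K0) : ℝ) : ℂ) with hLdef
  have hL : L ≠ 0 := by
    rw [hLdef]
    exact_mod_cast (by positivity : A * Real.exp (m * K0) ≠ 0)
  have hq : ((Real.exp (ρ * Real.eulerMascheroniConstant -
      (ρ * Real.eulerMascheroniConstant - Real.log A - m * K0)) : ℝ) : ℂ) = L := by
    rw [hLdef]
    congr 1
    have : ρ * Real.eulerMascheroniConstant -
      (ρ * Real.eulerMascheroniConstant - Real.log A - m * K0) = Real.log A + m * K0 := by ring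
    rw [this, Real.exp_add, Real.exp_log hA]
  rw [hq]
  set u : ℂ → ℂ := fun s => ((1 / 2 - s) / (1 / 2 + s)) ^ m * exp (m * (Kf s - Et s)) with hu
  have hdKE : DifferentiableAt ℂ (fun s => (m : ℂ) * (Kf s - Et s)) 0 :=
    ((Kf_facts.1 0 (by norm_num)).sub (Et_diff (by norm_num))).const_mul _
  have hu0 : u 0 = ((Real.exp (m * K0) : ℝ) : ℂ) := by
    rw [hu]
    simp only
    rw [Et_zero, Kf_zero]
    norm_num
  have hu0' : u 0 ≠ 0 := by
    rw [hu0]
    exact_mod_cast (Real.exp_pos _).ne'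
  have huc : ContinuousAt u 0 := by
    rw [hu]
    refine ContinuousAt.mul ?_ ?_
    · refine ContinuousAt.pow (ContinuousAt.div (by fun_prop) (by fun_prop) ?_) m
      norm_num
    · exact hdKE.continuousAt.cexp
  have hut : Tendsto u (𝓝[≠] 0) (𝓝 (u 0)) := huc.tendsto.mono_left nhdsWithin_le_nhds
  have hue : ∀ᶠ s in 𝓝[≠] (0 : ℂ), u s ≠ 0 :=
    (huc.eventually_ne hu0').filter_mono nhdsWithin_le_nhds
  have hreg : ∀ᶠ s in 𝓝[≠] (0 : ℂ), -η < s.re ∧ s ≠ 1 / 2 := by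
    have h1 : ∀ᶠ s in 𝓝 (0 : ℂ), -η < s.re :=
      (isOpen_lt continuous_const Complex.continuous_re).mem_nhds (by
        show -η < (0 : ℂ).re
        simpa using hη)
    have h2 : ∀ᶠ s in 𝓝 (0 : ℂ), s ≠ 1 / 2 := isOpen_ne.mem_nhds (by norm_num)
    exact (h1.and h2).filter_mono nhdsWithin_le_nhds
  have hrel : ∀ᶠ s in 𝓝[≠] (0 : ℂ), s ^ p * g s = (-1) ^ m * F (1 / 2 + s) * u s := by
    filter_upwards [nhdsWithin_le_nhds Q.near, hreg] with s h1 h2
    rw [← h1, G0_eq (hGF s h2.1 h2.2), hu]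
    simp only
    have e : ((s - 1 / 2) / (s + 1 / 2) : ℂ) = (-1) * ((1 / 2 - s) / (1 / 2 + s)) := by
      rw [add_comm s (1 / 2)]
      ring
    rw [e, mul_pow]
    ring
  have hshift : ∀ r : ℕ, Tendsto (fun s : ℂ => (-1) ^ m * F s / (s - 1 / 2) ^ r) (𝓝[≠] (1 / 2 : ℂ))
      (𝓝 (A : ℂ)) ↔ Tendsto (fun s : ℂ => (-1) ^ m * F (1 / 2 + s) / s ^ r) (𝓝[≠] (0 : ℂ)) (𝓝 (A : ℂ)) := by
    intro r
    have hm : Filter.map (fun s : ℂ => 1 / 2 + s) (𝓝[≠] (0 : ℂ)) = 𝓝[≠] (1 / 2 : ℂ) := by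
      have h1 := (Homeomorph.addLeft (1 / 2 : ℂ)).isEmbedding.map_nhdsWithin_eq ({0}ᶜ : Set ℂ) 0
      simp only [Homeomorph.coe_addLeft, add_zero] at h1
      rw [h1]
      congr 1
      ext z
      simp only [Set.mem_image, Set.mem_compl_iff, Set.mem_singleton_iff]
      constructor
      · rintro ⟨x, hx, rfl⟩ h2
        exact hx (by linear_combination h2)
      · intro hz
        exact ⟨z - 1 / 2, fun h2 => hz (by linear_combination h2), by ring⟩
    rw [← hm, Filter.tendsto_map'_iff]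
    refine tendsto_congr fun s => ?_
    simp only [Function.comp_apply]
    congr 2
    ring
  have hmain : ∀ r : ℕ, Tendsto (fun s : ℂ => (-1) ^ m * F s / (s - 1 / 2) ^ r) (𝓝[≠] (1 / 2 : ℂ))
      (𝓝 (A : ℂ)) ↔ p = r ∧ g 0 = L := by
    intro r
    rw [hshift r, ← ord_lim Q.hg.continuousAt Q.hg0 hL]
    constructor
    · intro h
      have h1 := h.mul hut
      rw [hu0, ← Complex.ofReal_mul] at h1
      refine h1.congr' ?_
      filter_upwards [hrel] with s hs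
      rw [hs]
      ring
    · intro h
      have h1 := h.div hut hu0'
      have e : L / u 0 = (A : ℂ) := by
        rw [hu0, hLdef]
        push_cast
        have : Complex.exp (m * K0) ≠ 0 := Complex.exp_ne_zero _
        field_simp
      rw [e] at h1
      refine h1.congr' ?_
      filter_upwards [hrel, hue] with s hs h2
      rw [Pi.div_apply, hs]
      field_simp
  unfold LeadP
  constructor
  · rintro ⟨r, hr, h⟩
    obtain ⟨h1, h2⟩ := (hmain r).1 h
    refine ⟨?_, h2⟩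
    rw [hr, h1]
    simp
  · rintro ⟨h1, h2⟩
    refine ⟨p, ?_, (hmain p).2 ⟨rfl, h2⟩⟩
    rw [h1]
    simp

end Pool.Agent.Q5.ZP
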