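import Pool.Agent.Q5.ZP.Main
import Pool.Agent.H306R2.ZetaGrowth

/-!
# The zeta function
-/

set_option autoImplicit false

open MeasureTheory Filter Topology Set Complex
open Pool.Agent.Q5.LI (RootsH multH LinInd RandomModel li_iff LinS RandomModelS li_iffS cP_H)
open Pool.Agent.TH270.MS (Pl)
open Pool.Agent.Q5.DC (nP)
open Pool.Agent.H306R2 (Zt Zt_one zeta_eq_pos Zt_differentiableAt Hf Hf_eq Hf_norm_le)

namespace Pool.Agent.Q5.ZP

/-- the local root -/
def a1 : Nat.Primes → Fin 1 → ℂ := fun _ _ => 1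

theorem roots_1 : RootsH a1 where
  le p j := by simp [a1]
  real p k := by simp [a1]

theorem Zt_bound {s : ℂ} (hs : 1 / 4 < s.re) : ‖Zt s‖ ≤ 5 * (1 + ‖s‖) ^ 2 := by
  have hs0 : 0 < s.re := by linarith
  have h1 := Hf_norm_le hs0
  have h2 : 1 / s.re ≤ 4 := by
    rw [div_le_iff₀ hs0]; linarith
  have h3 : ‖s - 1‖ ≤ ‖s‖ + 1 := by
    have := norm_sub_le s 1
    rwa [norm_one] at this
  have h0 := norm_nonneg s
  unfold Pool.Agent.H306R2.Zt
  calc ‖s - s * (s - 1) * Hf s‖ ≤ ‖s‖ + ‖s‖ * ‖s - 1‖ * ‖Hf s‖ := by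
        refine (norm_sub_le _ _).trans ?_
        rw [norm_mul, norm_mul]
    _ ≤ ‖s‖ + ‖s‖ * (‖s‖ + 1) * 4 := by
        gcongr
        linarith
    _ ≤ 5 * (1 + ‖s‖) ^ 2 := by nlinarith

theorem temp_1 : TempP a1 1 riemannZeta where
  cont := by
    refine ⟨1 / 4, 5, 2, Zt, by norm_num, by rw [Zt_one]; exact one_ne_zero, fun s hs => ?_, fun s hs h1 => ?_⟩
    · exact ⟨Zt_differentiableAt (by linarith), Zt_bound (by linarith)⟩
    · rw [pow_one]
      exact (zeta_eq_pos (by linarith) h1).symm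
  prod s hs := by
    have h := riemannZeta_eulerProduct_hasProd hs
    refine h.congr_fun fun p => ?_
    simp [a1]

/-- `-ζ(1/2)` is a positive real number -/
theorem zeta_half : ∃ c : ℝ, 0 < c ∧ -riemannZeta (1 / 2) = (c : ℂ) := by
  have h1 : (1 / 2 - 1 : ℂ) * riemannZeta (1 / 2) = Zt (1 / 2) :=
    zeta_eq_pos (by norm_num) (by norm_num)
  have h2 : Hf (1 / 2) = ((∫ t in Ioi (1 : ℝ), Int.fract t * t ^ (-(3 / 2) : ℝ) : ℝ) : ℂ) := by
    rw [Hf_eq, ← integral_complex_ofReal]
    refine setIntegral_congr_fun measurableSet_Ioi fun t ht => ?_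
    have ht0 : (0 : ℝ) ≤ t := by
      have : (1 : ℝ) < t := ht
      linarith
    rw [Complex.ofReal_mul, Complex.ofReal_cpow ht0]
    congr 2
    push_cast
    ring
  set J : ℝ := ∫ t in Ioi (1 : ℝ), Int.fract t * t ^ (-(3 / 2) : ℝ) with hJ
  have hJ0 : 0 ≤ J := by
    refine setIntegral_nonneg measurableSet_Ioi fun t ht => ?_
    have ht0 : (0 : ℝ) ≤ t := by
      have : (1 : ℝ) < t := ht
      linarith
    exact mul_nonneg (Int.fract_nonneg t) (Real.rpow_nonneg ht0 _)
  refine ⟨1 + J / 2, by linarith, ?_⟩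
  unfold Pool.Agent.H306R2.Zt at h1
  rw [h2] at h1
  push_cast
  linear_combination (2 : ℂ) * h1

theorem leadP_zeta {ρ A : ℝ} :
    LeadP riemannZeta 1 ρ A ↔ ρ = 0 ∧ A = -(riemannZeta (1 / 2)).re := by
  obtain ⟨c, hc, hz⟩ := zeta_half
  have hre : -(riemannZeta (1 / 2)).re = c := by
    have := congrArg Complex.re hz
    simpa using this
  have hcont : Tendsto (fun s : ℂ => (-1) ^ 1 * riemannZeta s) (𝓝[≠] (1 / 2 : ℂ)) (𝓝 (c : ℂ)) := by
    have h1 : ContinuousAt riemannZeta (1 / 2) := (differentiableAt_riemannZeta (by norm_num)).continuousAt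
    have h2 := (h1.tendsto.mono_left (nhdsWithin_le_nhds (s := {(1 / 2 : ℂ)}ᶜ))).neg
    rw [hz] at h2
    refine h2.congr fun s => ?_
    ring
  have hcne : (c : ℂ) ≠ 0 := by exact_mod_cast hc.ne'
  rw [hre]
  unfold LeadP
  constructor
  · rintro ⟨r, hr, h⟩
    by_cases h0 : r = 0
    · subst h0
      refine ⟨by rw [hr]; simp, ?_⟩
      have h1 : Tendsto (fun s : ℂ => (-1) ^ 1 * riemannZeta s / (s - 1 / 2) ^ 0) (𝓝[≠] (1 / 2 : ℂ))
          (𝓝 (c : ℂ)) := by
        refine hcont.congr fun s => ?_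
        rw [pow_zero, div_one]
      have h2 := tendsto_nhds_unique h h1
      exact_mod_cast h2
    · exfalso
      have h1 : Tendsto (fun s : ℂ => (s - 1 / 2) ^ r) (𝓝[≠] (1 / 2 : ℂ)) (𝓝 0) := by
        have h2 : Continuous fun s : ℂ => (s - 1 / 2) ^ r := by fun_prop
        have h3 := h2.tendsto (1 / 2)
        simp only [sub_self, zero_pow h0] at h3
        exact h3.mono_left nhdsWithin_le_nhds
      have h2 := h.mul h1
      rw [mul_zero] at h2
      have h3 : Tendsto (fun s : ℂ => (-1) ^ 1 * riemannZeta s) (𝓝[≠] (1 / 2 : ℂ)) (𝓝 0) := by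
        refine h2.congr' ?_
        filter_upwards [self_mem_nhdsWithin] with s hs
        have hs1 : s - 1 / 2 ≠ 0 := sub_ne_zero.2 hs
        have hs2 : (s - 1 / 2) ^ r ≠ 0 := pow_ne_zero _ hs1
        rw [div_mul_cancel₀ _ hs2]
      exact hcne (tendsto_nhds_unique hcont h3)
  · rintro ⟨h1, h2⟩
    refine ⟨0, by rw [h1]; simp, ?_⟩
    rw [h2]
    refine hcont.congr fun s => ?_
    rw [pow_zero, div_one]

/-- the Riemann hypothesis from the half plane (proof of helper353) -/
theorem RH_of (h : ∀ s : ℂ, 1 / 2 < s.re → s ≠ 1 → riemannZeta s ≠ 0) : RiemannHypothesis := by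
  intro s hs htriv h1
  by_contra hne
  rcases lt_or_gt_of_ne hne with hlt | hgt
  · by_cases h0 : s.re < 0
    · -- trivial zeros
      have h2 : ∀ n : ℕ, (1 - s) ≠ -n := by
        intro n hn
        have := congrArg Complex.re hn
        simp at this
        have : (0:ℝ) ≤ n := Nat.cast_nonneg n
        linarith
      have h3 : (1 - s) ≠ 1 := by
        intro h3
        have := congrArg Complex.re h3
        simp at this
        linarith
      have key := riemannZeta_one_sub h2 h3
      rw [sub_sub_cancel, hs] at key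
      have hz : riemannZeta (1 - s) ≠ 0 := riemannZeta_ne_zero_of_one_lt_re (by simp; linarith)
      have hG : Complex.Gamma (1 - s) ≠ 0 := Complex.Gamma_ne_zero h2
      have hp : (2 * (Real.pi : ℂ)) ^ (-(1 - s)) ≠ 0 := by
        rw [Complex.cpow_ne_zero_iff]
        left
        have := Real.pi_ne_zero
        simpa using this
      have hc : Complex.cos (Real.pi * (1 - s) / 2) = 0 := by
        by_contra hc
        exact (mul_ne_zero (mul_ne_zero (mul_ne_zero (mul_ne_zero two_ne_zero hp) hG) hc) hz) key.symm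
      rw [Complex.cos_eq_zero_iff] at hc
      obtain ⟨k, hk⟩ := hc
      have hpi : (Real.pi : ℂ) ≠ 0 := by exact_mod_cast Real.pi_ne_zero
      have hs2 : s = -2 * (k : ℂ) := by
        field_simp at hk
        linear_combination (-1 : ℂ) * hk
      have hkpos : 0 < k := by
        have := congrArg Complex.re hs2
        simp at this
        have h5 : (0:ℝ) < k := by linarith
        exact_mod_cast h5
      apply htriv
      refine ⟨(k - 1).toNat, ?_⟩
      have h6 : (((k - 1).toNat : ℕ) : ℂ) = (k : ℂ) - 1 := by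
        have : (((k - 1).toNat : ℤ)) = k - 1 := Int.toNat_of_nonneg (by omega)
        have h7 : (((k - 1).toNat : ℤ) : ℂ) = ((k - 1 : ℤ) : ℂ) := by rw [this]
        push_cast at h7
        exact_mod_cast h7
      rw [h6, hs2]
      ring
    · have h2 : ∀ n : ℕ, s ≠ -n := by
        intro n hn
        rcases Nat.eq_zero_or_pos n with h5 | h5
        · rw [hn, h5] at hs
          simp [riemannZeta_zero] at hs
        · have := congrArg Complex.re hn
          simp at this
          have h6 : (1:ℝ) ≤ n := by exact_mod_cast h5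
          linarith
      have key := riemannZeta_one_sub h2 h1
      rw [hs, mul_zero] at key
      refine h (1 - s) (by simp; linarith) ?_ key
      intro h3
      have : s = 0 := by linear_combination -h3
      rw [this] at hs
      simp [riemannZeta_zero] at hs
  · exact h s hgt h1 hs

theorem rh_iff : RHP riemannZeta ↔ RiemannHypothesis := by
  refine ⟨RH_of, fun h s hs h1 h0 => ?_⟩
  have h2 := h s h0 (by
    rintro ⟨n, hn⟩
    have := congrArg Complex.re hn
    simp at this
    have h3 : (0 : ℝ) ≤ n := Nat.cast_nonneg n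
    linarith) h1
  linarith

theorem zeta_ana {z : ℂ} (hz : z ≠ 1) : AnalyticAt ℂ riemannZeta z := by
  have h1 : DifferentiableOn ℂ riemannZeta {(1 : ℂ)}ᶜ := fun s hs =>
    (differentiableAt_riemannZeta hs).differentiableWithinAt
  exact h1.analyticOnNhd isOpen_compl_singleton z hz

theorem zeta_fin {z : ℂ} (hz : z ≠ 1) : analyticOrderAt riemannZeta z ≠ ⊤ := by
  intro h
  rw [analyticOrderAt_eq_top] at h
  have h1 : AnalyticOnNhd ℂ riemannZeta {(1 : ℂ)}ᶜ := fun x hx => zeta_ana hx
  have h3 : IsPreconnected ({(1 : ℂ)}ᶜ : Set ℂ) := by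
    refine (isConnected_compl_singleton_of_one_lt_rank ?_ (1 : ℂ)).isPreconnected
    rw [Complex.rank_real_complex]
    exact Nat.one_lt_ofNat
  have h2 := h1.eqOn_zero_of_preconnected_of_eventuallyEq_zero h3 hz h
  have h4 : riemannZeta 2 = 0 := h2 (show (2 : ℂ) ≠ 1 by norm_num)
  exact riemannZeta_ne_zero_of_one_lt_re (by norm_num) h4

theorem line_ne (t : ℝ) : (1 / 2 + t * I : ℂ) ≠ 1 := by
  intro h
  have h1 := congrArg Complex.re h
  simp at h1

theorem mult_zero_iff (t : ℝ) : multH riemannZeta t ≠ 0 ↔ riemannZeta (1 / 2 + t * I) = 0 := by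
  have h1 := zeta_ana (line_ne t)
  have h2 := zeta_fin (line_ne t)
  unfold multH
  rw [Ne, ENat.toNat_eq_zero, not_or]
  constructor
  · rintro ⟨h3, -⟩
    by_contra h4
    exact h3 (h1.analyticOrderAt_eq_zero.2 h4)
  · intro h3
    exact ⟨fun h4 => h1.analyticOrderAt_eq_zero.1 h4 h3, h2⟩

theorem simple_iff (t : ℝ) : multH riemannZeta t ≤ 1 ↔
    (riemannZeta (1 / 2 + t * I) = 0 → deriv riemannZeta (1 / 2 + t * I) ≠ 0) := by
  have h1 := zeta_ana (line_ne t)
  have h2 := zeta_fin (line_ne t)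
  obtain ⟨k, hk⟩ := ENat.ne_top_iff_exists.1 h2
  have hm : multH riemannZeta t = k := by
    unfold multH
    rw [← hk]
    rfl
  rw [hm]
  have hz : k ≠ 0 ↔ riemannZeta (1 / 2 + t * I) = 0 := by
    rw [← mult_zero_iff, hm]
  constructor
  · intro hk1 h0 hd
    have hk2 : k = 1 := by
      have := hz.2 h0
      omega
    have h3 := h1.analyticOrderAt_deriv_add_one
    rw [h0] at h3
    simp only [sub_zero] at h3
    have h4 : (fun z => riemannZeta z) = riemannZeta := rfl
    rw [← hk, hk2] at h3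
    have h5 : analyticOrderAt (deriv riemannZeta) (1 / 2 + t * I) ≠ 0 :=
      h1.deriv.analyticOrderAt_ne_zero.2 hd
    obtain ⟨j, hj⟩ := ENat.ne_top_iff_exists.1
      (show analyticOrderAt (deriv riemannZeta) (1 / 2 + t * I) ≠ ⊤ by
        intro h6
        rw [h6] at h3
        simp at h3)
    rw [← hj] at h3 h5
    have h6 : j + 1 = 1 := by exact_mod_cast h3
    have h7 : j ≠ 0 := by exact_mod_cast h5
    omega
  · intro h
    by_contra hk1
    push Not at hk1
    have h0 := hz.1 (by omega)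
    have h3 := h1.analyticOrderAt_deriv_add_one
    rw [h0] at h3
    simp only [sub_zero] at h3
    rw [← hk] at h3
    have h5 : analyticOrderAt (deriv riemannZeta) (1 / 2 + t * I) = 0 :=
      h1.deriv.analyticOrderAt_eq_zero.2 (h h0)
    rw [h5, zero_add] at h3
    have h6 : (1 : ℕ) = k := by exact_mod_cast h3
    omega

theorem Pl_1 (x : ℝ) : Pl nP a1 x = ∑ᶠ (z : Nat.Primes × ℕ) (_ : (z.1 : ℝ) ^ (z.2 + 1) ≤ x),
    1 / (((z.2 : ℝ) + 1) * √(z.1 : ℝ) ^ (z.2 + 1)) := by
  unfold Pl
  refine finsum_congr fun z => finsum_congr fun _ => ?_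
  rw [cP_H]
  simp [a1]

end Pool.Agent.Q5.ZP
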